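import Pool.Agent.P.MP_7a6434d8_pr.QL.Sys
import Pool.Agent.P.MP_ca04ec_pr.G.Loc

/-! Levels, coordinate changes, local functions, the field with a random constant. -/

open MeasureTheory ProbabilityTheory Set Filter Topology Metric
open scoped ENNReal

namespace Pool.Agent.QL

open Pool.Agent.LGD

/-- `G` depends only on the field in `U`. -/
def Loc {β : Type*} [MeasurableSpace β] (U : Set ℂ) (G : Dist → β) : Prop :=
  Measurable[fieldSigma id U] G

/-- The level of a frame. -/
noncomputable def Phi (F : Fr) (k : Dist) : ℝ := Xm F.z F.a k + QQ * Real.log ‖F.a‖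

theorem Fr.a_ne (F : Fr) : F.a ≠ 0 := F.2.2.2

theorem lev_apply (k : Dist) (c : ℝ) (φ : Test) : lev k c φ = k φ + c * ∫ x, φ x := by
  change k φ + c * ofFun (fun _ => 1) φ = _
  rw [ofFun_apply continuous_const]
  simp only [one_mul]

theorem lev_lev (k : Dist) (s t : ℝ) : lev (lev k s) t = lev k (s + t) := by
  simp only [lev, add_smul, add_assoc]

theorem lev_zero (k : Dist) : lev k 0 = k := by simp only [lev, zero_smul, add_zero]

theorem lev_psi (k : Dist) (c : ℝ) : lev k c psi = k psi + c := by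
  rw [lev_apply, psi_mass, mul_one]

theorem norm0_lev (k : Dist) (c : ℝ) : norm0 (lev k c) = norm0 k := by
  ext φ
  rw [norm0_apply, norm0_apply, lev_apply, integral_cen, mul_zero, add_zero]

theorem lev_norm0 (k : Dist) : lev (norm0 k) (k psi) = k := by
  simp only [lev, norm0, sub_add_cancel]

theorem measurable_lev : Measurable fun p : Dist × ℝ => lev p.1 p.2 :=
  measurable_toDist fun φ => by
    simp only [lev_apply]
    exact ((measurable_eval φ).comp measurable_fst).add (measurable_snd.mul_const _)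

theorem measurable_lev_const (c : ℝ) : Measurable fun k => lev k c :=
  measurable_lev.comp (measurable_id.prodMk measurable_const)

theorem absF_apply (F : Fr) (k : Dist) (φ : Test) :
    absF F k φ = k (pushT F.z F.a φ) + QQ * Real.log ‖F.a‖ * ∫ x, φ x := by
  rw [absF, lev_apply, precomp_apply]

theorem measurable_absF (F : Fr) : Measurable (absF F) :=
  measurable_toDist fun φ => by
    simp only [absF_apply]
    exact (measurable_eval _).add_const _

theorem measurable_Phi (F : Fr) : Measurable (Phi F) := (measurable_Xm _ _).add_const _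

theorem Xm_lev {a : ℂ} (ha : a ≠ 0) (z : ℂ) (k : Dist) (t : ℝ) :
    Xm z a (lev k t) = Xm z a k + t := by
  rw [Xm, lev_apply, integral_pushT ha, psi_mass, mul_one, Xm]

theorem Tm_lev {a : ℂ} (ha : a ≠ 0) (z : ℂ) (k : Dist) (t : ℝ) : Tm z a (lev k t) = Tm z a k := by
  ext φ
  rw [Tm_apply, Tm_apply, Xm_lev ha, lev_apply, integral_pushT ha]
  ring

theorem Phi_lev (F : Fr) (k : Dist) (t : ℝ) : Phi F (lev k t) = t + Phi F k := by
  rw [Phi, Xm_lev F.a_ne, Phi]
  ring

theorem absF_lev (F : Fr) (k : Dist) (t : ℝ) :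
    absF F (lev k t) = lev (Tm F.z F.a k) (t + Phi F k) := by
  ext φ
  rw [absF_apply, lev_apply, lev_apply, Tm_apply, integral_pushT F.a_ne, Phi]
  ring

theorem absF_eq (F : Fr) (k : Dist) : absF F k = lev (Tm F.z F.a k) (Phi F k) := by
  rw [← zero_add (Phi F k), ← absF_lev, lev_zero]

theorem absF_lev' (F : Fr) (k : Dist) (t : ℝ) : absF F (lev k t) = lev (absF F k) t := by
  rw [absF_lev, absF_eq, lev_lev, add_comm]

theorem absF_psi (F : Fr) (k : Dist) : absF F k psi = Phi F k := by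
  rw [absF_apply, psi_mass, mul_one]
  rfl

theorem absF_absF {F G H : Fr} (hz : H.z = aff F.z F.a G.z) (ha : H.a = F.a * G.a) (k : Dist) :
    absF G (absF F k) = absF H k := by
  ext φ
  rw [absF_apply, absF_apply, absF_apply, pushT_pushT F.a_ne G.a_ne, integral_pushT G.a_ne, hz, ha,
    norm_mul, Real.log_mul (norm_ne_zero_iff.2 F.a_ne) (norm_ne_zero_iff.2 G.a_ne)]
  ring

theorem Phi_absF {F G H : Fr} (hz : H.z = aff F.z F.a G.z) (ha : H.a = F.a * G.a) (k : Dist) :
    Phi G (absF F k) = Phi H k := by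
  rw [← absF_psi, ← absF_psi, absF_absF hz ha]

/-- The level depends only on the centre and the modulus of the multiplier. -/
theorem pushT_psi_congr {a b : ℂ} (h : ‖a‖ = ‖b‖) (z : ℂ) : pushT z a psi = pushT z b psi := by
  ext x
  rw [pushT_apply, pushT_apply, h, psi_radial (unaff z a x) (unaff z b x)]
  simp only [unaff, norm_div, h]

theorem Xm_congr {a b : ℂ} (h : ‖a‖ = ‖b‖) (z : ℂ) (k : Dist) : Xm z a k = Xm z b k := by
  rw [Xm, Xm, pushT_psi_congr h]

theorem Phi_congr {F G : Fr} (hz : F.z = G.z) (h : ‖F.a‖ = ‖G.a‖) (k : Dist) :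
    Phi F k = Phi G k := by
  rw [Phi, Phi, hz, h, Xm_congr h]

theorem field_le (U : Set ℂ) : fieldSigma id U ≤ instMSDist :=
  iSup₂_le fun φ _ => (measurable_eval φ).comap_le

theorem field_mono {U V : Set ℂ} (h : U ⊆ V) :
    fieldSigma (id : Dist → Dist) U ≤ fieldSigma id V :=
  iSup₂_le fun φ hφ => le_iSup₂_of_le (f := fun (φ : Test) (_ : tsupport φ ⊆ V) =>
    MeasurableSpace.comap (fun k : Dist => (id k) φ) (borel ℝ)) φ (hφ.trans h) le_rfl

theorem loc_eval {U : Set ℂ} {φ : Test} (h : tsupport φ ⊆ U) : Loc U fun k : Dist => k φ :=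
  Measurable.of_comap_le (le_iSup₂_of_le (f := fun (φ : Test) (_ : tsupport φ ⊆ U) =>
    MeasurableSpace.comap (fun k : Dist => (id k) φ) (borel ℝ)) φ h le_rfl)

/-- Criterion for measurability into the sigma-algebra of the field on `U`. -/
theorem measurable_toField {Ω : Type*} {m : MeasurableSpace Ω} {U : Set ℂ} {h : Ω → Dist}
    (hh : ∀ φ : Test, tsupport φ ⊆ U → Measurable[m] fun ω => h ω φ) :
    @Measurable Ω Dist m (fieldSigma id U) h := by
  refine Measurable.of_comap_le ?_
  simp only [fieldSigma, MeasurableSpace.comap_iSup, MeasurableSpace.comap_comp]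
  exact iSup₂_le fun φ hφ => (hh φ hφ).comap_le

theorem mem_iff_of_agree {U : Set ℂ} {A : Set Dist} (hA : MeasurableSet[fieldSigma id U] A)
    {k k' : Dist} (h : ∀ φ : Test, tsupport φ ⊆ U → k φ = k' φ) : k ∈ A ↔ k' ∈ A := by
  have hm : @Measurable Bool Dist ⊥ (fieldSigma id U) fun b => if b then k else k' :=
    measurable_toField fun φ hφ => by
      have e : (fun b : Bool => (if b then k else k') φ) = fun _ => k φ := by
        funext b
        cases b
        · exact (h φ hφ).symm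
        · rfl
      rw [e]
      exact measurable_const
  rcases MeasurableSpace.measurableSet_bot_iff.1 (hm hA) with e | e
  · exact iff_of_false (fun hk => (e ▸ hk : true ∈ (∅ : Set Bool)))
      fun hk => (e ▸ hk : false ∈ (∅ : Set Bool))
  · exact iff_of_true (e.ge (mem_univ true)) (e.ge (mem_univ false))

theorem measurable_Xsub {z a z' a' : ℂ} (ha : a ≠ 0) (ha' : a' ≠ 0) {V : Set ℂ}
    (h : ball z (6 * ‖a‖) ⊆ V) (h' : ball z' (6 * ‖a'‖) ⊆ V) :
    Measurable[G0 V] fun k => Xm z a k - Xm z' a' k := by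
  have s : ∀ {z a : ℂ}, a ≠ 0 → ball z (6 * ‖a‖) ⊆ V → tsupport (pushT z a psi) ⊆ V :=
    fun {z a} ha h => tsupport_pushT_subset ha psi_supp fun x hx => h (by
      have h1 := hx.2
      rw [sub_zero] at h1
      rw [mem_ball, dist_eq_norm, aff, add_sub_cancel_right, norm_mul, mul_comm]
      exact mul_lt_mul_of_pos_right h1 (norm_pos_iff.2 ha))
  have e : (fun k => Xm z a k - Xm z' a' k) =
      fun k : Dist => k (pushT z a psi - pushT z' a' psi) := funext fun k => (map_sub k _ _).symm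
  rw [e]
  refine measurable_G0 (by rw [integral_test_sub, integral_pushT ha, integral_pushT ha', sub_self])
    ((tsupport_sub _ _).trans (union_subset (s ha h) (s ha' h')))

namespace Loc

variable {β : Type*} [MeasurableSpace β] {U V : Set ℂ} {G : Dist → β}

theorem measurable (h : Loc U G) : Measurable G := h.mono (field_le U) le_rfl

theorem mono' (h : Loc U G) (hUV : U ⊆ V) : Loc V G := h.mono (field_mono hUV) le_rfl

theorem eq_of_agree [MeasurableSingletonClass β] (h : Loc U G) {k k' : Dist}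
    (e : ∀ φ : Test, tsupport φ ⊆ U → k φ = k' φ) : G k = G k' :=
  (mem_iff_of_agree (h (measurableSet_singleton (G k'))) e).2 rfl

theorem lev (h : Loc U G) (c : ℝ) : Loc U fun k => G (lev k c) :=
  h.comp (measurable_toField fun φ hφ => by
    simp only [lev_apply]
    exact (loc_eval hφ).add_const _)

theorem absF (h : Loc U G) (F : Fr) (hF : MapsTo F.map U V) : Loc V fun k => G (absF F k) :=
  h.comp (measurable_toField fun φ hφ => by
    simp only [absF_apply]
    exact (loc_eval (tsupport_pushT_subset F.a_ne hφ hF)).add_const _)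

/-- Seen from a frame and at a given level, a local function is a function of the field modulo
constants. -/
theorem tm_prod (h : Loc U G) {z a : ℂ} (ha : a ≠ 0) (hV : U ∪ Psi ⊆ aff z a ⁻¹' V) :
    Measurable[(G0 V).prod inferInstance] fun p : Dist × ℝ => G (QL.lev (Tm z a p.1) p.2) := by
  refine h.comp (measurable_toField fun φ hφ => ?_)
  have e : ∀ p : Dist × ℝ, QL.lev (Tm z a p.1) p.2 φ =
      p.1 (pushT z a (cen φ)) + p.2 * ∫ x, φ x := fun p => by
    rw [lev_apply, Tm, norm0_apply, precomp_apply]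
  simp only [e]
  have h1 : Measurable[G0 V] fun k : Dist => k (pushT z a (cen φ)) :=
    measurable_G0 (by rw [integral_pushT ha, integral_cen]) (tsupport_pushT_subset ha
      ((tsupport_cen φ).trans (union_subset_union_left _ hφ)) hV)
  exact (h1.comp (@measurable_fst _ _ (G0 V) _)).add
    ((@measurable_snd _ _ (G0 V) _).mul_const _)

theorem tm (h : Loc U G) {z a : ℂ} (ha : a ≠ 0) (hV : U ∪ Psi ⊆ aff z a ⁻¹' V) (c : ℝ) :
    Measurable[G0 V] fun k => G (QL.lev (Tm z a k) c) := by
  have h1 := h.tm_prod ha hV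
  have h2 : @Measurable Dist (Dist × ℝ) (G0 V) ((G0 V).prod inferInstance) fun k => (k, c) :=
    @measurable_prodMk_right _ _ (G0 V) _ c
  exact @Measurable.comp _ _ _ (G0 V) ((G0 V).prod inferInstance) _ _ (fun k => (k, c)) h1 h2

end Loc

theorem gauss_ae {p : ℝ → Prop} : (∀ᵐ t ∂gaussianReal 0 1, p t) ↔ ∀ᵐ t : ℝ, p t :=
  ⟨fun h => (gaussianReal_absolutelyContinuous' 0 one_ne_zero).ae_le h,
    fun h => (gaussianReal_absolutelyContinuous 0 one_ne_zero).ae_le h⟩

theorem ae_shift {p : ℝ → Prop} (h : ∀ᵐ t : ℝ, p t) (c : ℝ) : ∀ᵐ t : ℝ, p (t + c) :=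
  (measurePreserving_add_right volume c).quasiMeasurePreserving.ae h

section Nuh

variable {ν : Measure Dist}

theorem nuh_prob (hν : IsCanon ν) : IsProbabilityMeasure (nuh ν) := by
  have := hν.prob
  exact Measure.isProbabilityMeasure_map measurable_lev.aemeasurable

theorem lintegral_nuh (hν : IsCanon ν) {G : Dist → ℝ≥0∞} (hG : Measurable G) :
    ∫⁻ k, G k ∂nuh ν = ∫⁻ k, ∫⁻ s, G (lev k s) ∂gaussianReal 0 1 ∂ν := by
  have := hν.prob
  rw [nuh, lintegral_map hG measurable_lev]
  exact lintegral_prod _ (hG.comp measurable_lev).aemeasurable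

theorem lintegral_nuh' (hν : IsCanon ν) {G : Dist → ℝ≥0∞} (hG : Measurable G) :
    ∫⁻ k, G k ∂nuh ν = ∫⁻ s, ∫⁻ k, G (lev k s) ∂ν ∂gaussianReal 0 1 := by
  have := hν.prob
  rw [nuh, lintegral_map hG measurable_lev]
  exact lintegral_prod_symm _ (hG.comp measurable_lev).aemeasurable

theorem ae_nuh_kt (hν : IsCanon ν) {p : Dist → Prop} (h : ∀ᵐ k ∂nuh ν, p k) :
    ∀ᵐ k ∂ν, ∀ᵐ t : ℝ, p (lev k t) := by
  have := hν.prob
  exact (Measure.ae_ae_of_ae_prod (ae_of_ae_map measurable_lev.aemeasurable h)).mono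
    fun k hk => gauss_ae.1 hk

theorem ae_nuh_tk (hν : IsCanon ν) {p : Dist → Prop} (h : ∀ᵐ k ∂nuh ν, p k) :
    ∀ᵐ t : ℝ, ∀ᵐ k ∂ν, p (lev k t) := by
  have := hν.prob
  have h1 := (Measure.measurePreserving_swap (μ := gaussianReal 0 1)
    (ν := ν)).quasiMeasurePreserving.ae (ae_of_ae_map measurable_lev.aemeasurable h)
  exact gauss_ae.1 (Measure.ae_ae_of_ae_prod h1)

theorem ae_nuh_of_kt (hν : IsCanon ν) {p : Dist → Prop} (hp : MeasurableSet {k | p k})
    (h : ∀ᵐ k ∂ν, ∀ᵐ t : ℝ, p (lev k t)) : ∀ᵐ k ∂nuh ν, p k := by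
  have := hν.prob
  rw [nuh, ae_map_iff measurable_lev.aemeasurable hp]
  exact (Measure.ae_prod_iff_ae_ae (measurable_lev hp)).2 (h.mono fun k hk => gauss_ae.2 hk)

theorem ae_nuh_of_tk (hν : IsCanon ν) {p : Dist → Prop} (hp : MeasurableSet {k | p k})
    (h : ∀ᵐ t : ℝ, ∀ᵐ k ∂ν, p (lev k t)) : ∀ᵐ k ∂nuh ν, p k := by
  have := hν.prob
  refine ae_nuh_of_kt hν hp ?_
  exact (Measure.ae_ae_comm (p := fun (k : Dist) (t : ℝ) => p (lev k t))
    (measurable_lev hp)).2 h

theorem norm0_mp (hν : IsCanon ν) : MeasurePreserving norm0 (nuh ν) ν := by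
  have := hν.prob
  refine ⟨measurable_norm0, ?_⟩
  rw [nuh, Measure.map_map measurable_norm0 measurable_lev]
  have e : (norm0 ∘ fun p : Dist × ℝ => lev p.1 p.2) = norm0 ∘ Prod.fst :=
    funext fun p => norm0_lev _ _
  rw [e, ← Measure.map_map measurable_norm0 measurable_fst, Measure.map_fst_prod, measure_univ,
    one_smul, Measure.map_congr (show norm0 =ᵐ[ν] id from hν.norm0_ae), Measure.map_id]

theorem isGFF_nuh (hν : IsCanon ν) : IsGFF (nuh ν) id := by
  have h := norm0_mp hν
  have e : ∀ φ : Test, ∫ x, φ x = 0 → ∀ k : Dist, k φ = norm0 k φ := fun φ hφ k => by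
    rw [norm0_apply, cen_of_zero hφ]
  have hi : ∀ {f : Dist → ℝ}, Measurable f → ∫ k, f (norm0 k) ∂nuh ν = ∫ k, f k ∂ν :=
    fun {f} hf => by
      rw [← integral_map measurable_norm0.aemeasurable hf.aestronglyMeasurable, h.map_eq]
  refine ⟨measurable_eval, fun φ hφ => ?_, fun φ hφ => ?_, fun φ χ hφ hχ => ?_⟩
  · refine ⟨?_⟩
    have e1 : (fun k : Dist => id k φ) = (fun k : Dist => k φ) ∘ norm0 := funext (e φ hφ)
    rw [e1, ← Measure.map_map (measurable_eval φ) measurable_norm0, h.map_eq]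
    exact (hν.gauss φ).isGaussian_map
  · rw [← hν.mean φ, ← hi (measurable_eval φ)]
    exact integral_congr_ae (Eventually.of_forall (e φ hφ))
  · rw [← cv_of_zero hφ hχ, ← hν.cov, ← hi ((measurable_eval φ).fun_mul (measurable_eval χ))]
    refine integral_congr_ae (Eventually.of_forall fun k => ?_)
    simp only [id, ← e φ hφ, ← e χ hχ]

/-- A map `k ↦ lev (T k) (X k)` compatible with levels respects null sets. -/
theorem qmp_nuh (hν : IsCanon ν) {A T : Dist → Dist} {X : Dist → ℝ} (hA : Measurable A)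
    (hT : Measure.QuasiMeasurePreserving T ν ν) (e : ∀ k t, A (lev k t) = lev (T k) (t + X k)) :
    Measure.QuasiMeasurePreserving A (nuh ν) (nuh ν) := by
  refine ⟨hA, Measure.AbsolutelyContinuous.mk fun N hN h0 => ?_⟩
  rw [Measure.map_apply hA hN]
  have h1 := hT.ae (ae_nuh_kt hν (p := fun k => k ∉ N) (measure_eq_zero_iff_ae_notMem.1 h0))
  refine measure_eq_zero_iff_ae_notMem.2 (ae_nuh_of_kt hν (hA hN).compl (h1.mono fun k hk => ?_))
  refine (ae_shift hk (X k)).mono fun t ht => ?_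
  rwa [mem_preimage, e]

theorem absF_qmp (hν : IsCanon ν) (F : Fr) :
    Measure.QuasiMeasurePreserving (absF F) (nuh ν) (nuh ν) :=
  qmp_nuh hν (measurable_absF F) (hν.Tm_mp F.a_ne F.z).quasiMeasurePreserving (absF_lev F)

theorem lev_qmp (hν : IsCanon ν) (c : ℝ) :
    Measure.QuasiMeasurePreserving (fun k => lev k c) (nuh ν) (nuh ν) :=
  qmp_nuh hν (T := id) (X := fun _ => c) (measurable_lev_const c)
    (Measure.QuasiMeasurePreserving.id ν) fun k t => lev_lev k t c

theorem Sm_qmp_nuh (hν : IsCanon ν) {f : ℂ → ℝ} (hf : Adm f) :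
    Measure.QuasiMeasurePreserving (Sm f) (nuh ν) (nuh ν) :=
  qmp_nuh hν (X := fun _ => 0) (measurable_Sm f) (hν.Sm_qmp hf) fun k t => by
    simp only [Sm, lev, add_zero, add_right_comm]

/-- The converse direction of quasi-invariance. -/
theorem ae_of_ae_absF (hν : IsCanon ν) (F : Fr) {p : Dist → Prop} (hp : MeasurableSet {k | p k})
    (h : ∀ᵐ k ∂nuh ν, p (absF F k)) : ∀ᵐ k ∂nuh ν, p k := by
  have h1 : ∀ᵐ k ∂ν, ∀ᵐ t : ℝ, p (lev (Tm F.z F.a k) t) := by
    refine (ae_nuh_kt hν h).mono fun k hk => (ae_shift hk (-Phi F k)).mono fun t ht => ?_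
    rwa [absF_lev, neg_add_cancel_right] at ht
  have hm : MeasurableSet {k : Dist | ∀ᵐ t : ℝ, p (lev k t)} := by
    have h2 := measurable_measure_prodMk_left (ν := (volume : Measure ℝ))
      (measurable_lev hp).compl
    exact h2 (measurableSet_singleton 0)
  refine ae_nuh_of_kt hν hp ?_
  rw [← (hν.Tm_mp F.a_ne F.z).map_eq, ae_map_iff (measurable_Tm _ _).aemeasurable hm]
  exact h1

end Nuh

end Pool.Agent.QL
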