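import Pool.Agent.P.MP_7a6434d8_pr.QL.GT.Shift
import Pool.Agent.P.MP_7a6434d8_pr.QL.GR

/-! Comparison of levels and the germ zero-one law. -/

open MeasureTheory ProbabilityTheory Set Filter Topology Metric
open scoped ENNReal

namespace Pool.Agent.QL

open Pool.Agent.LGD

variable {ν : Measure Dist}

theorem nice_U0 : Nice U0 := ⟨isOpen_ball, convex_ball _ _, Subset.rfl⟩

theorem exists_bump_U0 : ∃ f : Test, tsupport f ⊆ ball 0 5 ∧ ∀ x ∈ U0, f x = 1 := by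
  let b : ContDiffBump (0 : ℂ) := ⟨4, 9 / 2, by norm_num, by norm_num⟩
  refine ⟨toTest b, ?_, fun x hx => ?_⟩ <;> rw [toTest_coe b.contDiff b.hasCompactSupport]
  · rw [b.tsupport_eq]
    exact closedBall_subset_ball (by norm_num [b])
  · exact b.one_of_mem_closedBall (ball_subset_closedBall hx)

theorem pair_of_one {f φ : Test} {U : Set ℂ} (hf : ∀ x ∈ U, f x = 1) (hφ : tsupport φ ⊆ U) :
    ∫ x, f x * φ x = ∫ x, φ x := by
  refine integral_congr_ae (Eventually.of_forall fun x => ?_)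
  by_cases hx : x ∈ tsupport φ
  · simp only [hf x (hφ hx), one_mul]
  · simp only [image_eq_zero_of_notMem_tsupport hx, mul_zero]

/-- Comparison of two levels. -/
theorem lev_sq (hν : IsCanon ν) : ∃ e : ℝ, 0 ≤ e ∧ ∀ G : Dist → ℝ≥0∞, Loc U0 G → (∀ k, G k ≤ 1) →
    ∀ c c' : ℝ, (∫⁻ k, G (lev k c') ∂ν) ^ 2 ≤ ex (e * (c' - c) ^ 2) * ∫⁻ k, G (lev k c) ∂ν := by
  obtain ⟨f, hf, h1⟩ := exists_bump_U0
  refine ⟨en0 f, en0_nonneg hν f, fun G hG hle c c' => ?_⟩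
  have m : Measurable fun k => G (lev k c) := (hG.lev c).measurable
  have e1 : ∀ k, G (lev k c') = G (lev (sh f (c' - c) k) c) := fun k =>
    hG.eq_of_agree fun φ hφ => by
      rw [lev_apply, lev_apply, sh_apply, pair_of_one h1 hφ]
      ring
  have mx : ∀ s : ℝ, Measurable fun k : Dist => s * k (lap0 f) := fun s =>
    (measurable_eval _).const_mul s
  simp only [e1]
  rw [cm_sh hν hf (c' - c) m]
  refine (lint_cs ν (CMAux.measurable_ex.comp ((mx _).sub_const _)).aemeasurable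
    m.aemeasurable).trans (mul_le_mul' (le_of_eq ?_) (lintegral_mono fun k => ?_))
  · have e2 : ∀ k : Dist, ex ((c' - c) * k (lap0 f) - (c' - c) ^ 2 * en0 f / 2) ^ 2 =
        ex (2 * (c' - c) * k (lap0 f)) * ex (-((c' - c) ^ 2 * en0 f)) := fun k => by
      rw [ex_sq, ← CMAux.ex_add]
      congr 1
      ring
    simp only [Function.comp, e2]
    have m2 : Measurable fun k : Dist => ex (2 * (c' - c) * k (lap0 f)) :=
      CMAux.measurable_ex.comp (mx _)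
    rw [lintegral_mul_const _ m2, lintegral_ex_lap hν, ← CMAux.ex_add]
    congr 1
    ring
  · rw [sq]
    exact mul_le_of_le_one_left' (hle _)

theorem lev_null (hν : IsCanon ν) {N : Set Dist} (hN : MeasurableSet[fieldSigma id U0] N)
    {c : ℝ} (h : ∀ᵐ k ∂ν, lev k c ∉ N) (c' : ℝ) : ∀ᵐ k ∂ν, lev k c' ∉ N := by
  obtain ⟨e, -, he⟩ := lev_sq hν
  have hG : Loc U0 (N.indicator fun _ => (1 : ℝ≥0∞)) := by
    let _ : MeasurableSpace Dist := fieldSigma id U0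
    exact measurable_const.indicator hN
  have h1 := he _ hG (fun k => indicator_le_self' (fun _ _ => zero_le_one) k) c c'
  have h2 : ∫⁻ k, N.indicator (fun _ => (1 : ℝ≥0∞)) (lev k c) ∂ν = 0 := by
    rw [← lintegral_zero (μ := ν)]
    exact lintegral_congr_ae (h.mono fun k hk => indicator_of_notMem hk _)
  rw [h2, mul_zero, nonpos_iff_eq_zero, pow_eq_zero_iff two_ne_zero,
    lintegral_eq_zero_iff (hG.lev c').measurable] at h1
  exact h1.mono fun k hk hm => one_ne_zero ((indicator_of_mem hm _).symm.trans hk)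

/-- On the reference domain every fixed level has the null sets of the random level. -/
theorem nuh_null_iff (hν : IsCanon ν) {N : Set Dist} (hN : MeasurableSet[fieldSigma id U0] N)
    (c : ℝ) : nuh ν N = 0 ↔ ∀ᵐ k ∂ν, lev k c ∉ N := by
  rw [measure_eq_zero_iff_ae_notMem]
  refine ⟨fun h => ?_, fun h => ae_nuh_of_tk hν (field_le _ _ hN).compl
    (Eventually.of_forall (lev_null hν hN h))⟩
  obtain ⟨t, ht⟩ := (ae_nuh_tk hν h).exists
  exact lev_null hν hN ht c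

theorem Regime.loc1 (R : Regime ν) {U : Set ℂ} (hU : Nice U) {E : Set Sys}
    (hE : MeasurableSet[SS U] E) :
    ∃ G : Dist → ℝ≥0∞, Loc U G ∧ (∀ k, G k ≤ 1) ∧ ∀ᵐ k ∂nuh ν, R.K k E = G k := by
  have := R.markov
  obtain ⟨G, hG, h⟩ := R.loc U hU E hE
  refine ⟨fun k => min (G k) 1, (measurable_id.min measurable_const).comp hG,
    fun k => min_le_right _ _, h.mono fun k hk => ?_⟩
  change _ = min (G k) 1
  rw [← hk, min_eq_left prob_le_one]

theorem Regime.bet_eq (hν : IsCanon ν) (R : Regime ν) {E : Set Sys} {G : Dist → ℝ≥0∞}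
    (h : ∀ᵐ k ∂nuh ν, R.K k E = G k) (c : ℝ) :
    R.bet c E = ∫⁻ s in Icc (0 : ℝ) 1, ∫⁻ k, G (lev k (c + s)) ∂ν := by
  refine lintegral_congr_ae (ae_restrict_of_ae ((ae_shift (ae_nuh_tk hν h) c).mono fun s hs => ?_))
  rw [add_comm] at hs
  exact lintegral_congr_ae hs

theorem unit_le {g : ℝ → ℝ≥0∞} {b : ℝ≥0∞} (h : ∀ s ∈ Icc (0 : ℝ) 1, g s ≤ b) :
    ∫⁻ s in Icc (0 : ℝ) 1, g s ≤ b := by
  refine (setLIntegral_mono' measurableSet_Icc h).trans (le_of_eq ?_)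
  rw [setLIntegral_const, Real.volume_Icc, sub_zero, ENNReal.ofReal_one, mul_one]

theorem Regime.bet_le_one (hν : IsCanon ν) (R : Regime ν) (c : ℝ) (E : Set Sys) :
    R.bet c E ≤ 1 := by
  have := R.markov
  have := hν.prob
  refine unit_le fun s _ => (lintegral_mono fun k => prob_le_one).trans (le_of_eq ?_)
  rw [lintegral_const, measure_univ, mul_one]

theorem unit_sq_le {g : ℝ → ℝ≥0∞} {X : ℝ≥0∞} (h : ∀ s ∈ Icc (0 : ℝ) 1, g s ^ 2 ≤ X) :
    (∫⁻ s in Icc (0 : ℝ) 1, g s) ^ 2 ≤ X := by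
  have e : (X ^ (1 / 2 : ℝ)) ^ 2 = X := by
    rw [← ENNReal.rpow_two, ← ENNReal.rpow_mul]
    norm_num
  rw [← e] at h ⊢
  exact pow_le_pow_left' (unit_le fun s hs => le_of_sq_le_sq' (h s hs)) 2

/-- Levels of a regime: a local version at a fixed level against `bet`, in both directions, and
`bet` against `bet`. -/
theorem bet_sq (hν : IsCanon ν) (m : ℝ) : ∃ C : ℝ≥0∞, C ≠ ⊤ ∧ ∀ (R : Regime ν) (E : Set Sys)
    (c c' : ℝ), |c' - c| ≤ m →
    (∀ G : Dist → ℝ≥0∞, Loc U0 G → (∀ k, G k ≤ 1) → (∀ᵐ k ∂nuh ν, R.K k E = G k) →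
      (∫⁻ k, G (lev k c') ∂ν) ^ 2 ≤ C * R.bet c E ∧
      R.bet c' E ^ 2 ≤ C * ∫⁻ k, G (lev k c) ∂ν) ∧
    (MeasurableSet[SS U0] E → R.bet c' E ^ 2 ≤ C * R.bet c E) := by
  obtain ⟨e, he0, he⟩ := lev_sq hν
  refine ⟨ex (e * (m + 2) ^ 2), ex_ne_top' _, fun R E c c' hc => ?_⟩
  have a0 : ∀ G : Dist → ℝ≥0∞, Loc U0 G → (∀ k, G k ≤ 1) → ∀ u v : ℝ, |v - u| ≤ m + 2 →
      (∫⁻ k, G (lev k v) ∂ν) ^ 2 ≤ ex (e * (m + 2) ^ 2) * ∫⁻ k, G (lev k u) ∂ν :=
    fun G h1 h2 u v h => (he G h1 h2 u v).trans (mul_le_mul_left (ex_mono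
      (mul_le_mul_of_nonneg_left (sq_le_sq' (abs_le.1 h).1 (abs_le.1 h).2) he0)) _)
  have a1 : ∀ G : Dist → ℝ≥0∞, Loc U0 G → (∀ k, G k ≤ 1) → (∀ᵐ k ∂nuh ν, R.K k E = G k) →
      ∀ v : ℝ, |v - c| ≤ m + 1 →
      (∫⁻ k, G (lev k v) ∂ν) ^ 2 ≤ ex (e * (m + 2) ^ 2) * R.bet c E := by
    intro G h1 h2 h3 v hv
    rw [R.bet_eq hν h3, ← lintegral_const_mul' _ _ (ex_ne_top' _)]
    refine le_trans (le_of_eq ?_) (setLIntegral_mono' (f := fun _ => (∫⁻ k, G (lev k v) ∂ν) ^ 2)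
      measurableSet_Icc fun s hs => a0 G h1 h2 _ _ ?_)
    · rw [setLIntegral_const, Real.volume_Icc, sub_zero, ENNReal.ofReal_one, mul_one]
    · rw [abs_le] at hv ⊢
      constructor <;> linarith [hv.1, hv.2, hs.1, hs.2]
  have hc' := abs_le.1 hc
  refine ⟨fun G h1 h2 h3 => ⟨a1 G h1 h2 h3 c' (by linarith), ?_⟩, fun hE => ?_⟩
  · rw [R.bet_eq hν h3]
    refine unit_sq_le fun s hs => a0 G h1 h2 _ _ (abs_le.2 ?_)
    constructor <;> linarith [hc'.1, hc'.2, hs.1, hs.2]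
  · obtain ⟨G, h1, h2, h3⟩ := R.loc1 nice_U0 hE
    rw [R.bet_eq hν h3 c']
    refine unit_sq_le fun s hs => a1 G h1 h2 h3 _ (abs_le.2 ?_)
    constructor <;> linarith [hc'.1, hc'.2, hs.1, hs.2]

/-- The same in epsilon-delta form. -/
theorem bet_small (hν : IsCanon ν) (m : ℝ) {ε : ℝ≥0∞} (hε : 0 < ε) : ∃ δ : ℝ≥0∞, 0 < δ ∧
    ∀ (R : Regime ν) (E : Set Sys) (c c' : ℝ), |c' - c| ≤ m →
    (∀ G : Dist → ℝ≥0∞, Loc U0 G → (∀ k, G k ≤ 1) → (∀ᵐ k ∂nuh ν, R.K k E = G k) →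
      (R.bet c E ≤ δ → ∫⁻ k, G (lev k c') ∂ν ≤ ε) ∧
      (∫⁻ k, G (lev k c) ∂ν ≤ δ → R.bet c' E ≤ ε)) ∧
    (MeasurableSet[SS U0] E → R.bet c E ≤ δ → R.bet c' E ≤ ε) := by
  obtain ⟨C, hC, h⟩ := bet_sq hν m
  have k : ∀ {a b : ℝ≥0∞}, a ^ 2 ≤ C * b → b ≤ ε ^ 2 / C → a ≤ ε := fun h1 h2 =>
    le_of_sq_le_sq' (h1.trans ((mul_le_mul_right h2 C).trans ENNReal.mul_div_le))
  refine ⟨ε ^ 2 / C, ENNReal.div_pos (pow_ne_zero 2 hε.ne') hC, fun R E c c' hc => ?_⟩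
  obtain ⟨h1, h2⟩ := h R E c c' hc
  exact ⟨fun G a b d => ⟨k (h1 G a b d).1, k (h1 G a b d).2⟩, fun hE => k (h2 hE)⟩

theorem bet_zero_iff (hν : IsCanon ν) (R : Regime ν) {E : Set Sys} (hE : MeasurableSet[SS U0] E)
    (c : ℝ) : R.bet c E = 0 ↔ ∀ᵐ k ∂nuh ν, R.K k E = 0 := by
  refine ⟨fun h => ?_, fun h => ?_⟩
  · obtain ⟨G, h1, h2, h3⟩ := R.loc1 nice_U0 hE
    have h4 : ∀ s, ∫⁻ k, G (lev k s) ∂ν = 0 := fun s => by
      obtain ⟨C, -, hC⟩ := bet_sq hν |s - c|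
      have := ((hC R E c s le_rfl).1 G h1 h2 h3).1
      rwa [h, mul_zero, nonpos_iff_eq_zero, pow_eq_zero_iff two_ne_zero] at this
    have h5 := lintegral_nuh' hν h1.measurable
    simp only [h4, lintegral_zero] at h5
    filter_upwards [h3, (lintegral_eq_zero_iff h1.measurable).1 h5] with k a b using a.trans b
  · rw [R.bet_eq hν h]
    simp only [lintegral_zero]

/-- Germ zero-one law for events. -/
theorem germ_set (hν : IsCanon ν) {z : ℂ} (hz : z ∈ U0) {A : Set Dist}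
    (hA : ∀ r > 0, ∃ B, MeasurableSet[fieldSigma id (ball z r)] B ∧ A =ᵐ[nuh ν] B) :
    nuh ν A = 0 ∨ nuh ν Aᶜ = 0 := by
  obtain ⟨r₀, hr₀, hs⟩ := Metric.isOpen_iff.1 nice_U0.1 z hz
  obtain ⟨B₀, hB₀, e₀⟩ := hA r₀ hr₀
  have m₀ := field_mono hs _ hB₀
  have t : ∀ {N : Set Dist}, MeasurableSet[fieldSigma id U0] N → (nuh ν N = 0 ↔ ν N = 0) :=
    fun {N} hN => by
      rw [nuh_null_iff hν hN 0, measure_eq_zero_iff_ae_notMem]
      simp only [lev_zero]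
  have h := gr_zero_one hν z (mem_ball_zero_iff.1 hz).le B₀ fun r hr => by
    obtain ⟨B, hB, e⟩ := hA (min r r₀) (lt_min hr hr₀)
    have m := field_mono ((ball_subset_ball (min_le_right _ _)).trans hs) _ hB
    have e1 := ae_eq_set.1 (e₀.symm.trans e)
    exact ⟨B, field_mono (ball_subset_ball (min_le_left _ _)) _ hB,
      ae_eq_set.2 ⟨(t (m₀.diff m)).1 e1.1, (t (m.diff m₀)).1 e1.2⟩⟩
  rw [measure_congr e₀, measure_congr e₀.compl, t m₀, t m₀.compl]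
  exact h

/-- Germ zero-one law for functions. -/
theorem germ_fun (hν : IsCanon ν) {z : ℂ} (hz : z ∈ U0) {β : Type*} [MeasurableSpace β]
    [MeasurableSpace.CountablySeparated β] [Nonempty β] {G : Dist → β}
    (hG : ∀ r > 0, ∃ G', Loc (ball z r) G' ∧ G =ᵐ[nuh ν] G') :
    ∃ b, ∀ᵐ k ∂nuh ν, G k = b := by
  refine Filter.exists_eventuallyEq_const_of_forall_separating (l := ae (nuh ν)) (f := G)
    MeasurableSet fun U hU => ?_
  have h := germ_set hν hz (A := G ⁻¹' U) fun r hr => by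
    obtain ⟨G', h1, h2⟩ := hG r hr
    exact ⟨G' ⁻¹' U, h1 hU, h2.preimage U⟩
  exact h.symm.imp id fun h0 => measure_eq_zero_iff_ae_notMem.1 h0

end Pool.Agent.QL
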