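import Pool.Agent.P.MP_7a6434d8_pr.QL.GT.Shift

/-! Resampling the component of the field along one test function. -/

open MeasureTheory ProbabilityTheory Set Filter Topology Metric
open scoped ENNReal

namespace Pool.Agent.QL

open Pool.Agent.LGD

variable {ν : Measure Dist}

/-- The component of `k` along `f`. -/
noncomputable def Wf (f : Test) (k : Dist) : ℝ := k (lap0 f) / en0 f

theorem measurable_Wf (f : Test) : Measurable (Wf f) := (measurable_eval _).div_const _

theorem en0_pos {f : Test} (hf : f ≠ 0) : 0 < en0 f := by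
  have c : ∀ v : ℂ, Continuous fun w => fderiv ℝ f w v := fun v =>
    (f.smooth.continuous_fderiv (by simp)).clm_apply continuous_const
  have s : ∀ v : ℂ, HasCompactSupport fun w => fderiv ℝ f w v ^ 2 := fun v => by
    simp only [sq]
    exact (f.hasCompactSupport.fderiv_apply ℝ v).mul_left
  have hc : Continuous fun w => fderiv ℝ f w 1 ^ 2 + fderiv ℝ f w Complex.I ^ 2 :=
    ((c 1).pow 2).add ((c _).pow 2)
  obtain ⟨x, hx⟩ : ∃ x, fderiv ℝ f x 1 ^ 2 + fderiv ℝ f x Complex.I ^ 2 ≠ 0 := by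
    by_contra! h
    have h1 : ∀ x, fderiv ℝ f x = 0 := fun x => by
      have a := h x
      have a1 : fderiv ℝ f x 1 = 0 := by nlinarith [sq_nonneg (fderiv ℝ f x Complex.I)]
      have a2 : fderiv ℝ f x Complex.I = 0 := by nlinarith [sq_nonneg (fderiv ℝ f x 1)]
      ext v
      rw [← Complex.re_add_im v, ← mul_one (v.re : ℂ), ← Complex.real_smul, ← Complex.real_smul,
        map_add, map_smul, map_smul, a1, a2]
      simp
    obtain ⟨y, hy⟩ := (ne_univ_iff_exists_notMem _).1 f.hasCompactSupport.isCompact.ne_univ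
    refine hf (by
      ext x
      rw [is_const_of_fderiv_eq_zero (f.smooth.differentiable (by simp)) h1 x y,
        image_eq_zero_of_notMem_tsupport hy]
      rfl)
  rw [en0, energy_eq]
  exact mul_pos (by positivity) (hc.integral_pos_of_hasCompactSupport_nonneg_nonzero
    ((s 1).add (s _)) (fun x => by positivity) hx)

theorem Wf_sh {f : Test} (he : 0 < en0 f) (s : ℝ) (k : Dist) : Wf f (sh f s k) = Wf f k + s := by
  rw [Wf, sh_apply, ← en0_eq, add_div, mul_div_cancel_right₀ _ he.ne', Wf]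

theorem dec_mp (hν : IsCanon ν) {f : Test} (hf : tsupport f ⊆ ball 0 5) (he : 0 < en0 f) :
    MeasurePreserving (fun p : Dist × ℝ => sh f (p.2 - Wf f p.1) p.1)
      (ν.prod (gaussianReal 0 (en0 f)⁻¹.toNNReal)) ν := by
  have := hν.prob
  have m : Measurable fun p : Dist × ℝ => sh f (p.2 - Wf f p.1) p.1 :=
    (measurable_sh f).comp (measurable_fst.prodMk
      (measurable_snd.sub ((measurable_Wf f).comp measurable_fst)))
  refine ⟨m, ?_⟩
  have := Measure.isProbabilityMeasure_map (μ := ν.prod (gaussianReal 0 (en0 f)⁻¹.toNNReal))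
    m.aemeasurable
  refine ext_law fun φ => ?_
  set c := ∫ x, f x * φ x with hc
  set χ : Test := (-(c / en0 f)) • lap0 f + φ with hχ
  have e : ((fun k : Dist => k φ) ∘ fun p : Dist × ℝ => sh f (p.2 - Wf f p.1) p.1) =
      (fun q : ℝ × ℝ => q.1 + q.2) ∘ Prod.map (fun k : Dist => k χ) fun w => c * w := by
    funext p
    simp only [Function.comp, sh_apply, Prod.map, hχ, map_add, map_smul, smul_eq_mul, Wf, ← hc]
    ring
  have v : cv χ χ = cv φ φ - c ^ 2 / en0 f := by
    have s : cv (lap0 f) φ = c := by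
      rw [hc, ← cv_lap0 hf, cv, cv, logCov_symm]
    rw [hχ, CMAux.cv_comb, CMAux.cv_self (integral_lap0 f), s, ← en0]
    field_simp
    ring
  have v0 := hν.cv_nonneg χ
  rw [Measure.map_map (measurable_eval φ) m, e, ← Measure.map_map measurable_add
    ((measurable_eval χ).prodMap (measurable_const_mul c)),
    ← Measure.map_prod_map _ _ (measurable_eval χ) (measurable_const_mul c), hν.map_eval,
    hν.map_eval, gaussianReal_map_const_mul]
  refine (gaussianReal_conv_gaussianReal).trans ?_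
  rw [mul_zero, add_zero]
  congr 1
  ext
  rw [NNReal.coe_add, NNReal.coe_mul, Real.coe_toNNReal _ v0,
    Real.coe_toNNReal _ (hν.cv_nonneg φ), Real.coe_toNNReal _ (inv_pos.2 he).le, v]
  simp [div_eq_mul_inv]

theorem dec_lintegral (hν : IsCanon ν) {f : Test} (hf : tsupport f ⊆ ball 0 5) (he : 0 < en0 f)
    {H : Dist → ℝ≥0∞} (hH : Measurable H) :
    ∫⁻ k, H k ∂ν =
      ∫⁻ k, ∫⁻ w, H (sh f (w - Wf f k) k) ∂gaussianReal 0 (en0 f)⁻¹.toNNReal ∂ν := by
  have h := dec_mp hν hf he
  rw [← h.lintegral_comp hH]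
  exact lintegral_prod _ (hH.comp h.measurable).aemeasurable

theorem sh_qmp (hν : IsCanon ν) {f : Test} (hf : tsupport f ⊆ ball 0 5) (s : ℝ) :
    Measure.QuasiMeasurePreserving (sh f s) ν ν := by
  refine ⟨measurable_sh_const f s, Measure.AbsolutelyContinuous.mk fun N hN h0 => ?_⟩
  rw [← lintegral_indicator_one hN, lintegral_map (measurable_one.indicator hN)
    (measurable_sh_const f s), cm_sh hν hf s (measurable_one.indicator hN),
    ← lintegral_zero (μ := ν)]
  refine lintegral_congr_ae ((measure_eq_zero_iff_ae_notMem.1 h0).mono fun k hk => ?_)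
  simp only [indicator_of_notMem hk, mul_zero]

/-- Almost sure statements along the line of shifts. -/
theorem dec_ae (hν : IsCanon ν) {f : Test} (hf : tsupport f ⊆ ball 0 5) {p : Dist → Prop}
    (h : ∀ᵐ k ∂ν, p k) : ∀ᵐ k ∂ν, ∀ᵐ s : ℝ, p (sh f s k) := by
  have := hν.prob
  obtain ⟨N, h1, hN, h0⟩ := exists_measurable_superset_of_null h
  have h2 : ∀ᵐ k ∂ν, ∀ᵐ s : ℝ, sh f s k ∉ N :=
    (Measure.ae_ae_comm (p := fun (k : Dist) (s : ℝ) => sh f s k ∉ N)
      (measurable_sh f hN.compl)).2 (Eventually.of_forall fun s =>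
        (sh_qmp hν hf s).ae (measure_eq_zero_iff_ae_notMem.1 h0))
  exact h2.mono fun k hk => hk.mono fun s hs => by_contra fun hp => hs (h1 hp)

theorem dec_ae' (hν : IsCanon ν) {f : Test} (hf : tsupport f ⊆ ball 0 5) {p : Dist → Prop}
    (hp : MeasurableSet {k | p k}) (h : ∀ᵐ k ∂ν, ∀ᵐ s : ℝ, p (sh f s k)) : ∀ᵐ k ∂ν, p k := by
  have := hν.prob
  obtain ⟨s, hs⟩ := ((Measure.ae_ae_comm (p := fun (k : Dist) (s : ℝ) => p (sh f s k))
    (measurable_sh f hp)).1 h).exists
  refine ((sh_qmp hν hf (-s)).ae hs).mono fun k hk => ?_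
  rwa [sh_sh, add_neg_cancel, sh_zero] at hk

end Pool.Agent.QL
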