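import Pool.Agent.P.MP_7a6434d8_pr.QL.GT.Shift
import Pool.Agent.P.MP_ca04ec_pr.G.Tails

/-! Local limit bound for the average of the field at a small scale. -/

open MeasureTheory ProbabilityTheory Set Filter Topology Metric
open scoped ENNReal

namespace Pool.Agent.QL

open Pool.Agent.LGD

variable {ν : Measure Dist}

/-- The Gaussian window bound with variance of order `L`. -/
noncomputable def gw (C c L y : ℝ) : ℝ≥0∞ :=
  ENNReal.ofReal (C / √L * Real.exp (-(c * y ^ 2 / L)))

/-- The window bounds over a shifted copy of the integers have a bounded sum. -/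
theorem gw_tsum {C c : ℝ} (hC : 0 ≤ C) (hc : 0 < c) : ∃ C' : ℝ, ∀ L b : ℝ, 1 ≤ L →
    ∑' y : ℤ, gw C c L (y - b) ≤ ENNReal.ofReal C' := by
  refine ⟨C * Real.exp c * √(2 * Real.pi / c), fun L b hL => ?_⟩
  have hL0 : 0 < L := by linarith
  have hs : 0 < √L := Real.sqrt_pos.2 hL0
  set g : ℝ → ℝ := fun x => C / √L * Real.exp c * Real.exp (-(c / (2 * L)) * (x - b) ^ 2) with hg
  have hi : Integrable g :=
    ((integrable_exp_neg_mul_sq (by positivity : 0 < c / (2 * L))).comp_sub_right b).const_mul _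
  have h1 : ∀ y : ℤ, gw C c L (y - b) ≤ ∫⁻ x in Ico (y : ℝ) (y + 1), ENNReal.ofReal (g x) := by
    intro y
    refine le_trans (le_of_eq ?_) (setLIntegral_mono' (f := fun _ => gw C c L (y - b))
      measurableSet_Ico fun x hx => ENNReal.ofReal_le_ofReal ?_)
    · rw [setLIntegral_const, Real.volume_Ico, add_sub_cancel_left, ENNReal.ofReal_one, mul_one]
    · rw [hg]
      simp only
      rw [mul_assoc, ← Real.exp_add]
      refine mul_le_mul_of_nonneg_left (Real.exp_le_exp.2 ?_) (by positivity)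
      have h2 : (x - b) ^ 2 ≤ 2 * ((y : ℝ) - b) ^ 2 + 2 * L := by
        nlinarith [sq_nonneg (x - y - (y - b)), hx.1, hx.2]
      have h3 := mul_le_mul_of_nonneg_left h2 (by positivity : 0 ≤ c / (2 * L))
      have h4 : c / (2 * L) * (2 * ((y : ℝ) - b) ^ 2 + 2 * L) = c * (y - b) ^ 2 / L + c := by
        field_simp
      linarith
  refine (ENNReal.tsum_le_tsum h1).trans (le_of_eq ?_)
  rw [← lintegral_iUnion (fun _ => measurableSet_Ico) (pairwise_disjoint_Ico_intCast ℝ),
    iUnion_Ico_intCast, Measure.restrict_univ,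
    ← ofReal_integral_eq_lintegral_ofReal hi (Eventually.of_forall fun x => by positivity), hg,
    integral_const_mul, integral_sub_right_eq_self (fun x => Real.exp (-(c / (2 * L)) * x ^ 2)) b,
    integral_gaussian]
  congr 1
  have e : Real.pi / (c / (2 * L)) = 2 * Real.pi / c * L := by field_simp
  rw [e, Real.sqrt_mul (by positivity)]
  field_simp

theorem lap0_add (f g : Test) : lap0 (f + g) = lap0 f + lap0 g := by
  simp only [lap0, map_add, smul_add]
  abel

theorem lap0_smul (c : ℝ) (f : Test) : lap0 (c • f) = c • lap0 f := by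
  simp only [lap0, map_smul, ← smul_add, smul_comm c]

theorem en0_add (f g : Test) : en0 (f + g) = en0 f + 2 * (∫ x, f x * lap0 g x) + en0 g := by
  have e : logCov (lap0 g) (lap0 f) = ∫ x, f x * lap0 g x := by
    rw [logCov_lap0]
    simp only [mul_comm]
  rw [en0, lap0_add, logCov_add_left, logCov_add_right, logCov_add_right,
    logCov_symm (lap0 f) (lap0 g), e, en0, en0]
  ring

theorem en0_smul (c : ℝ) (f : Test) : en0 (c • f) = c ^ 2 * en0 f := by
  rw [en0, lap0_smul, logCov_smul_left, logCov_smul_right, en0]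
  ring

/-- A test function carried to a frame. -/
noncomputable def upT (z a : ℂ) (b : Test) : Test := ‖a‖ ^ 2 • pushT z a b

theorem upT_apply {a : ℂ} (ha : a ≠ 0) (z : ℂ) (b : Test) (x : ℂ) :
    upT z a b x = b (unaff z a x) := by
  have : ‖a‖ ^ 2 ≠ 0 := by positivity
  change ‖a‖ ^ 2 * pushT z a b x = _
  rw [pushT_apply, mul_div_cancel₀ _ this]

theorem tsupport_upT (z a : ℂ) (b : Test) : tsupport (upT z a b) ⊆ unaff z a ⁻¹' tsupport b :=
  (tsupport_smul_subset_right (fun _ => ‖a‖ ^ 2) (pushT z a b)).trans (tsupport_pushT z a b)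

theorem en0_upT {a : ℂ} (ha : a ≠ 0) (z : ℂ) (b : Test) : en0 (upT z a b) = en0 b := by
  have e : ∀ x, pot (pushT z a (lap0 b)) x = upT z a b x := fun x => by
    rw [pot_pushT ha, integral_lap0, green, upT_apply ha, mul_zero, sub_zero]
  have e1 : en0 (upT z a b) = logCov (lap0 (upT z a b)) (pushT z a (lap0 b)) := by
    rw [logCov_eq, en0_eq]
    simp only [e]
  have e2 := logCov_pushT ha z (lap0 b) (lap0 b)
  rw [integral_lap0, mul_zero, mul_zero, sub_zero, logCov_eq] at e2
  rw [e1, logCov_symm, logCov_lap0, en0, ← e2]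
  simp only [e, mul_comm]

theorem norm_unaff (z a x : ℂ) : ‖unaff z a x‖ = ‖x - z‖ / ‖a‖ := norm_div _ _

theorem pair_const {f φ : Test} {U : Set ℂ} {c : ℝ} (hf : ∀ x ∈ U, f x = c)
    (hφ : tsupport φ ⊆ U) : ∫ x, f x * φ x = c * ∫ x, φ x := by
  rw [← integral_const_mul]
  refine integral_congr_ae (Eventually.of_forall fun x => ?_)
  by_cases hx : x ∈ tsupport φ
  · simp only [hf x (hφ hx)]
  · simp only [image_eq_zero_of_notMem_tsupport hx, mul_zero]

/-- The logarithmic cutoff. -/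
theorem exists_cutoff : ∃ E : ℝ, ∀ (z : ℂ) (N : ℕ), 1 ≤ N → ∃ f : Test,
    tsupport f ⊆ closedBall z (1 / 2) ∧ (∀ x ∈ closedBall z (1 / 2 / 2 ^ N), f x = 1) ∧
      en0 f = E / N := by
  let b : ContDiffBump (0 : ℂ) := ⟨1 / 2, 1, by norm_num, by norm_num⟩
  have hb : ⇑(toTest b) = b := toTest_coe b.contDiff b.hasCompactSupport
  refine ⟨en0 (toTest b), fun z N hN => ?_⟩
  have key : ∀ n : ℕ, ∃ S : Test, tsupport S ⊆ closedBall z (1 / 2) ∧
      (∀ x ∈ closedBall z (1 / 2 / 2 ^ n), S x = n) ∧ en0 S = n * en0 (toTest b) := by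
    intro n
    induction n with
    | zero =>
      refine ⟨0, ?_, fun x _ => by simp, ?_⟩
      · rw [show ⇑(0 : Test) = 0 from rfl, tsupport_zero]
        exact empty_subset _
      · rw [← zero_smul ℝ (0 : Test), en0_smul]
        simp
    | succ n ih =>
      obtain ⟨S, h1, h2, h3⟩ := ih
      have hp : (0 : ℝ) < 1 / 2 / 2 ^ n := by positivity
      have ha : ((1 / 2 / 2 ^ n : ℝ) : ℂ) ≠ 0 := Complex.ofReal_ne_zero.2 hp.ne'
      have hn : ‖((1 / 2 / 2 ^ n : ℝ) : ℂ)‖ = 1 / 2 / 2 ^ n := Complex.norm_of_nonneg hp.le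
      set g := upT z ((1 / 2 / 2 ^ n : ℝ) : ℂ) (toTest b) with hg
      have s1 : tsupport g ⊆ closedBall z (1 / 2 / 2 ^ n) := fun x hx => by
        have := tsupport_upT _ _ _ hx
        rw [mem_preimage, hb, b.tsupport_eq, mem_closedBall_zero_iff, norm_unaff, hn,
          div_le_iff₀ hp] at this
        rw [mem_closedBall_iff_norm]
        exact this.trans (one_mul _).le
      have s2 : (1 : ℝ) / 2 / 2 ^ n ≤ 1 / 2 := div_le_self (by norm_num) (one_le_pow₀ one_le_two)
      have s3 : (1 : ℝ) / 2 / 2 ^ (n + 1) = 1 / 2 * (1 / 2 / 2 ^ n) := by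
        rw [pow_succ]
        field_simp
      refine ⟨S + g, (tsupport_add S g).trans (union_subset h1
        (s1.trans (closedBall_subset_closedBall s2))), fun x hx => ?_, ?_⟩
      · rw [s3] at hx
        have e1 : g x = 1 := by
          rw [hg, upT_apply ha, hb]
          refine b.one_of_mem_closedBall ?_
          rw [mem_closedBall_zero_iff, norm_unaff, hn, div_le_iff₀ hp]
          exact mem_closedBall_iff_norm.1 hx
        change S x + g x = _
        rw [h2 x (closedBall_subset_closedBall (by linarith) hx), e1, Nat.cast_succ]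
      · rw [en0_add, pair_const h2 ((tsupport_lap0 g).trans s1), integral_lap0, h3, hg, en0_upT ha,
          Nat.cast_succ]
        ring
  obtain ⟨S, h1, h2, h3⟩ := key N
  have hN0 : (N : ℝ) ≠ 0 := by positivity
  refine ⟨(N : ℝ)⁻¹ • S, (tsupport_smul_subset_right (fun _ => (N : ℝ)⁻¹) S).trans h1,
    fun x hx => ?_, ?_⟩
  · change (N : ℝ)⁻¹ * S x = 1
    rw [h2 x hx, inv_mul_cancel₀ hN0]
  · rw [en0_smul, h3]
    field_simp

/-- Functions of the field modulo constants on `U`. -/
theorem G0_eq_of_agree {β : Type*} [MeasurableSpace β] [MeasurableSingletonClass β] {U : Set ℂ}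
    {H : Dist → β} (hH : Measurable[G0 U] H) {k k' : Dist}
    (h : ∀ φ : Test, ∫ x, φ x = 0 → tsupport φ ⊆ U → k φ = k' φ) : H k = H k' := by
  have hm : @Measurable Bool Dist ⊥ (G0 U) fun b => if b then k else k' := by
    refine Measurable.of_comap_le ?_
    simp only [G0, MeasurableSpace.comap_iSup, MeasurableSpace.comap_comp]
    refine iSup_le fun φ => iSup_le fun h0 => iSup_le fun hφ => ?_
    have e : ((fun k : Dist => k φ) ∘ fun b : Bool => if b then k else k') = fun _ => k φ := by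
      funext b
      cases b
      · exact (h φ h0 hφ).symm
      · rfl
    rw [e]
    exact measurable_const.comap_le
  rcases MeasurableSpace.measurableSet_bot_iff.1 (hm (hH (measurableSet_singleton (H k')))) with
    e | e
  · exact absurd (e.le (show false ∈ _ from rfl)) id
  · exact e.ge (mem_univ true)

theorem G0_sh {β : Type*} [MeasurableSpace β] [MeasurableSingletonClass β] {U : Set ℂ}
    {H : Dist → β} (hH : Measurable[G0 U] H) {f : Test} {c : ℝ} (hf : ∀ x ∈ U, f x = c) (s : ℝ)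
    (k : Dist) : H (sh f s k) = H k :=
  G0_eq_of_agree hH fun φ h0 hφ => by
    rw [sh_apply, pair_const hf hφ, h0, mul_zero, mul_zero, add_zero]

theorem tsupport_psi_ball {a : ℂ} (ha : a ≠ 0) (z : ℂ) :
    tsupport (pushT z a psi) ⊆ ann z (5 * ‖a‖) (6 * ‖a‖) :=
  tsupport_pushT_subset ha psi_supp fun x hx => by
    have h := norm_pos_iff.2 ha
    obtain ⟨h1, h2⟩ := hx
    rw [sub_zero] at h1 h2
    constructor <;> rw [aff, add_sub_cancel_right, norm_mul] <;> nlinarith

theorem two_mul_ex (u : ℝ) : 2 * ex u ≤ ex (1 + u) := by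
  rw [CMAux.ex_add]
  refine mul_le_mul_left ?_ _
  rw [← ENNReal.ofReal_ofNat]
  exact ENNReal.ofReal_le_ofReal (by linarith [Real.add_one_le_exp 1])

theorem one_le_neg_log {r : ℝ} (h0 : 0 < r) (h : r ≤ 1 / 100) : 1 ≤ -Real.log r := by
  rw [← Real.log_inv, Real.le_log_iff_exp_le (inv_pos.2 h0), le_inv_comm₀ (Real.exp_pos 1) h0]
  refine h.trans ?_
  rw [one_div]
  exact inv_anti₀ (Real.exp_pos 1) (by linarith [Real.exp_one_lt_d9])

theorem window_tail (hν : IsCanon ν) : ∃ V : ℝ, 1 ≤ V ∧ ∀ z a : ℂ, ‖z‖ ≤ 4 → a ≠ 0 →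
    ‖a‖ ≤ 1 / 100 → ∀ y : ℝ, ν {k | Xm z a k ∈ Icc (y - √(-Real.log ‖a‖)) (y + 1)} ≤
      ex (3 - y ^ 2 / (8 * V * -Real.log ‖a‖)) := by
  have := hν.prob
  obtain ⟨C, hC⟩ := hν.ga 4
  refine ⟨1 + |C|, le_add_of_nonneg_right (abs_nonneg C), fun z a hz ha hr y => ?_⟩
  have hL := one_le_neg_log (norm_pos_iff.2 ha) hr
  obtain ⟨h1, h2⟩ := hC z a 0 1 ha one_ne_zero (by simpa using hz) (by simp; linarith)
  rw [norm_one, one_div, Real.log_inv] at h1 h2
  set L := -Real.log ‖a‖
  have c0 := abs_nonneg C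
  have c1 := le_abs_self C
  have hs : 1 ≤ √L := Real.one_le_sqrt.2 hL
  have hq : √L ^ 2 = L := Real.sq_sqrt (by linarith)
  have hp : 0 < 8 * (1 + |C|) * L := by positivity
  rcases le_or_gt |y| (4 * √L) with h | h
  · refine prob_le_one.trans ?_
    rw [show (1 : ℝ≥0∞) = ex 0 by simp [ex]]
    refine ex_mono (sub_nonneg.2 ((div_le_iff₀ hp).2 ?_))
    have := pow_le_pow_left₀ (abs_nonneg y) h 2
    rw [sq_abs, mul_pow, hq] at this
    nlinarith [mul_nonneg c0 (zero_le_one.trans hL)]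
  · refine le_trans (measure_mono_ae ?_) ((h2 (|y| / 2) (by positivity)).trans
      ((two_mul_ex _).trans (ex_mono ?_)))
    · filter_upwards [hν.X_one] with k hk hm
      change |y| / 2 < |Xm z a k - Xm 0 1 k|
      rw [hk, sub_zero]
      have h3 : |y| ≤ |Xm z a k| + √L := by
        have h4 : |y - Xm z a k| ≤ √L := abs_le.2 ⟨by linarith [hm.2], by linarith [hm.1]⟩
        linarith [abs_sub_abs_le_abs_sub y (Xm z a k)]
      linarith
    · have h5 : y ^ 2 / (8 * (1 + |C|) * L) ≤ (|y| / 2) ^ 2 / (2 * (L + C)) := by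
        rw [div_pow, sq_abs, div_div]
        refine div_le_div_of_nonneg_left (sq_nonneg y) (by positivity) ?_
        nlinarith [mul_le_mul_of_nonneg_left hL c0]
      linarith

theorem lt0 (hν : IsCanon ν) : ∃ C c : ℝ, 0 < C ∧ 0 < c ∧ ∀ z a : ℂ, ‖z‖ ≤ 4 → a ≠ 0 →
    ‖a‖ ≤ 1 / 100 → ∀ H : Dist → ℝ≥0∞, Measurable[G0 (ball z (16 * ‖a‖))] H → ∀ b : ℝ≥0∞,
    ∫⁻ k, H k ^ 2 ∂ν ≤ b ^ 2 → ∀ y : ℝ,
    ∫⁻ k in {k | Xm z a k ∈ Icc y (y + 1)}, H k ∂ν ≤ gw C c (-Real.log ‖a‖) y * b := by
  obtain ⟨E, hE⟩ := exists_cutoff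
  obtain ⟨V, hV, hw⟩ := window_tail hν
  refine ⟨Real.exp (14 * E + 1), 1 / (32 * V), Real.exp_pos _, by positivity,
    fun z a hz ha hr H hH b hb y => ?_⟩
  have hp := norm_pos_iff.2 ha
  have hL := one_le_neg_log hp hr
  have hw1 := hw z a hz ha hr y
  have hx : (2 : ℝ) ≤ 1 / (32 * ‖a‖) := by
    rw [le_div_iff₀ (by positivity)]
    linarith
  obtain ⟨N, n1, n2⟩ := exists_nat_pow_near (one_le_two.trans hx) (one_lt_two (α := ℝ))
  have hN : 1 ≤ N := by
    rcases N with _ | N
    · simp only [zero_add, pow_one] at n2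
      linarith
    · omega
  have hN' : (1 : ℝ) ≤ N := by exact_mod_cast hN
  obtain ⟨f, f1, f2, f3⟩ := hE z N hN
  have hLN : -Real.log ‖a‖ ≤ 7 * N := by
    have h1 : ‖a‖⁻¹ ≤ 2 ^ (N + 6) := by
      have e : ‖a‖⁻¹ = 1 / (32 * ‖a‖) * 32 := by field_simp
      rw [e, show (2 : ℝ) ^ (N + 6) = 2 ^ (N + 1) * 32 by ring]
      linarith
    have h2 := Real.log_le_log (inv_pos.2 hp) h1
    rw [Real.log_inv, Real.log_pow] at h2
    push_cast at h2
    nlinarith [Real.log_two_lt_d9, Real.log_two_gt_d9]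
  set L := -Real.log ‖a‖
  have hs : 1 ≤ √L := Real.one_le_sqrt.2 hL
  have hq : √L ^ 2 = L := Real.sq_sqrt (by linarith)
  have hf : tsupport f ⊆ ball 0 5 := f1.trans (closedBall_subset_ball' (by
    rw [dist_zero_right]; linarith))
  have f4 : ∀ x ∈ ball z (16 * ‖a‖), f x = 1 := fun x hx => f2 x (ball_subset_closedBall
    (ball_subset_ball (by
      rw [le_div_iff₀ (by positivity)] at n1 ⊢
      linarith) hx))
  have hX : ∀ s k, Xm z a (sh f s k) = Xm z a k + s := fun s k => by
    rw [Xm, sh_apply, pair_const f4 ((tsupport_psi_ball ha z).trans fun x hx =>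
      mem_ball_iff_norm.2 (by linarith [hx.2])), integral_pushT ha, psi_mass, Xm]
    ring
  have he0 := en0_nonneg hν f
  have he : L * en0 f ≤ 7 * E := by
    have : E = en0 f * N := by rw [f3]; field_simp
    rw [this]
    nlinarith
  have mH : Measurable H := hH.mono (G0_le _) le_rfl
  have mS : ∀ u v : ℝ, MeasurableSet {k | Xm z a k ∈ Icc u v} := fun u v =>
    measurable_Xm z a measurableSet_Icc
  have mx : Measurable fun k : Dist => ex (√L * |k (lap0 f)|) :=
    CMAux.measurable_ex.comp ((measurable_eval _).abs.const_mul _)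
  set I : Dist → ℝ≥0∞ := {k | Xm z a k ∈ Icc (y - √L) (y + 1)}.indicator 1 with hI
  have mI : Measurable I := measurable_one.indicator (mS _ _)
  have qI : ∀ k, I k ^ 2 = I k := fun k => by
    rw [hI]
    by_cases hk : k ∈ {k | Xm z a k ∈ Icc (y - √L) (y + 1)}
    · rw [indicator_of_mem hk]
      simp
    · rw [indicator_of_notMem hk]
      simp
  have h1 := cm_step hν hf (√L) mH (measurable_one.indicator (mS y (y + 1))) (G0_sh hH f4)
  have h2 : ∀ k, ∫⁻ s in Icc 0 √L,
      {k | Xm z a k ∈ Icc y (y + 1)}.indicator (1 : Dist → ℝ≥0∞) (sh f s k) ≤ I k := by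
    intro k
    have e : ∀ s, {k | Xm z a k ∈ Icc y (y + 1)}.indicator (1 : Dist → ℝ≥0∞) (sh f s k) =
        (Icc (y - Xm z a k) (y + 1 - Xm z a k)).indicator 1 s := fun s => by
      by_cases h : s ∈ Icc (y - Xm z a k) (y + 1 - Xm z a k)
      · rw [indicator_of_mem h, indicator_of_mem]
        · rfl
        · rw [mem_ofPred_eq, hX]
          exact ⟨by linarith [h.1], by linarith [h.2]⟩
      · rw [indicator_of_notMem h, indicator_of_notMem]
        rw [mem_ofPred_eq, hX]
        exact fun h' => h ⟨by linarith [h'.1], by linarith [h'.2]⟩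
    simp only [e]
    rw [lintegral_indicator_one measurableSet_Icc, Measure.restrict_apply measurableSet_Icc]
    by_cases hk : k ∈ {k | Xm z a k ∈ Icc (y - √L) (y + 1)}
    · rw [hI, indicator_of_mem hk]
      refine (measure_mono inter_subset_left).trans (le_of_eq ?_)
      rw [Real.volume_Icc, show y + 1 - Xm z a k - (y - Xm z a k) = 1 by ring, ENNReal.ofReal_one]
      rfl
    · rw [eq_empty_of_forall_notMem (s := _ ∩ _) fun s hs => hk
        ⟨by linarith [hs.1.1, hs.2.2], by linarith [hs.1.2, hs.2.1]⟩, measure_empty]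
      exact zero_le
  set Q := ex (14 * E + 1 - 1 / (32 * V) * y ^ 2 / L) with hQ
  have h3 : ∫⁻ k, (ex (√L * |k (lap0 f)|) * I k) ^ 2 ∂ν ≤ Q ^ 2 := by
    simp only [mul_pow, qI]
    refine le_of_sq_le_sq' ((lint_cs ν (mx.pow_const 2).aemeasurable mI.aemeasurable).trans ?_)
    simp only [qI, ex_sq, ← mul_assoc]
    rw [hI, lintegral_indicator_one (mS _ _), hQ, ex_sq, ex_sq]
    refine (mul_le_mul' ((lintegral_ex_abs hν f (by positivity)).trans (two_mul_ex _)) hw1).trans ?_
    rw [← CMAux.ex_add]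
    refine ex_mono ?_
    have e : 1 / (32 * V) * y ^ 2 / L = y ^ 2 / (8 * V * L) / 4 := by field_simp; ring
    rw [mul_pow, hq, e]
    nlinarith
  have h4 : ∫⁻ k, H k * (ex (√L * |k (lap0 f)|) * I k) ∂ν ≤ b * Q := by
    refine le_of_sq_le_sq' ((lint_cs ν mH.aemeasurable (mx.mul mI).aemeasurable).trans ?_)
    rw [mul_pow]
    exact mul_le_mul' hb h3
  have h5 := h1.trans ((lintegral_mono fun k =>
    mul_le_mul_right (mul_le_mul_right (h2 k) _) _).trans h4)
  have e1 : b * Q = ENNReal.ofReal √L * (gw (Real.exp (14 * E + 1)) (1 / (32 * V)) L y * b) := by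
    rw [← mul_assoc, mul_comm b, gw, ← ENNReal.ofReal_mul (by positivity), hQ, ex, sub_eq_add_neg,
      Real.exp_add]
    congr 2
    field_simp
  rw [e1, ENNReal.mul_le_mul_iff_right (by simp; linarith) ENNReal.ofReal_ne_top] at h5
  refine le_trans (le_of_eq ?_) h5
  rw [← lintegral_indicator (mS _ _)]
  refine lintegral_congr fun k => ?_
  by_cases hk : k ∈ {k | Xm z a k ∈ Icc y (y + 1)}
  · rw [indicator_of_mem hk, indicator_of_mem hk]
    simp
  · rw [indicator_of_notMem hk, indicator_of_notMem hk]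
    simp

end Pool.Agent.QL
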