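import Pool.Agent.P.MP_7a6434d8_pr.QL.GT.LT0
import Pool.Agent.P.MP_ca04ec_pr.G.Exists
import Pool.Agent.P.MP_ca04ec_pr.Tail.Sys2

/-! Tools for products over many scales. -/

open MeasureTheory ProbabilityTheory Set Filter Topology Metric
open scoped ENNReal

namespace Pool.Agent.QL.GT

open Pool.Agent.LGD

variable {ν : Measure Dist}

theorem lint_cs' {Ω : Type*} [MeasurableSpace Ω] (μ : Measure Ω) {F A B : Ω → ℝ≥0∞}
    (hA : Measurable A) (hB : Measurable B) (h : ∀ x, F x ^ 2 ≤ A x * B x) :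
    (∫⁻ x, F x ∂μ) ^ 2 ≤ (∫⁻ x, A x ∂μ) * ∫⁻ x, B x ∂μ := by
  have e : ∀ a : ℝ≥0∞, (a ^ (1 / 2 : ℝ)) ^ 2 = a := fun a => by
    rw [← ENNReal.rpow_two, ← ENNReal.rpow_mul]
    norm_num
  have h1 := lint_cs μ (hA.pow_const (1 / 2 : ℝ)).aemeasurable
    (hB.pow_const (1 / 2 : ℝ)).aemeasurable
  simp only [e] at h1
  refine le_trans (pow_le_pow_left' (lintegral_mono fun x => le_of_sq_le_sq' ?_) 2) h1
  rw [mul_pow, e, e]
  exact h x

theorem _root_.Pool.Agent.QL.Loc.sh_eq {β : Type*} [MeasurableSpace β] [MeasurableSingletonClass β] {U : Set ℂ}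
    {G : Dist → β} (h : Loc U G) {f : Test} (hf : Disjoint (tsupport f) U) (s : ℝ) (k : Dist) :
    G (sh f s k) = G k :=
  h.eq_of_agree fun φ hφ => by
    rw [sh_apply, integral_mul_eq_zero hφ fun x hx =>
      image_eq_zero_of_notMem_tsupport (disjoint_right.1 hf hx), mul_zero, add_zero]

/-- The average of `g` over unit shifts along `f`, with the cost of the shift. -/
noncomputable def avg (f : Test) (g : Dist → ℝ≥0∞) (k : Dist) : ℝ≥0∞ :=
  ex |k (lap0 f)| * ∫⁻ s in Icc (0 : ℝ) 1, g (sh f s k)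

theorem measurable_avg (f : Test) {g : Dist → ℝ≥0∞} (hg : Measurable g) : Measurable (avg f g) :=
  (CMAux.measurable_ex.comp (measurable_eval _).abs).mul
    (hg.comp (measurable_sh f)).lintegral_prod_right'

theorem avg_sh {U : Set ℂ} {f f' : Test} {g : Dist → ℝ≥0∞} (hg : Loc U g) (hf : tsupport f ⊆ U)
    (hf' : Disjoint (tsupport f') U) (s : ℝ) (k : Dist) : avg f g (sh f' s k) = avg f g k := by
  have e : ∀ u, sh f u (sh f' s k) = sh f' s (sh f u k) := fun u => add_right_comm _ _ _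
  simp only [avg, e, hg.sh_eq hf', (loc_eval ((tsupport_lap0 f).trans hf)).sh_eq hf']

/-- Averaging over independent shifts in disjoint regions. -/
theorem multi_step (hν : IsCanon ν) {ι : Type*} (s : Finset ι) (U : ι → Set ℂ) (f : ι → Test)
    (g : ι → Dist → ℝ≥0∞) (h5 : ∀ i ∈ s, tsupport (f i) ⊆ ball 0 5)
    (hf : ∀ i ∈ s, tsupport (f i) ⊆ U i) (hg : ∀ i ∈ s, Loc (U i) (g i))
    (hU : ∀ i ∈ s, ∀ j ∈ s, i ≠ j → Disjoint (U i) (U j)) {A : Dist → ℝ≥0∞} (hA : Measurable A)
    (hi : ∀ i ∈ s, ∀ u k, A (sh (f i) u k) = A k) :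
    ∫⁻ k, A k * ∏ i ∈ s, g i k ∂ν ≤ ∫⁻ k, A k * ∏ i ∈ s, avg (f i) (g i) k ∂ν := by
  classical
  induction s using Finset.induction_on generalizing A with
  | empty => exact le_rfl
  | insert a s ha ih =>
    have m := Finset.mem_insert_self a s
    have m' : ∀ i ∈ s, i ∈ insert a s := fun i => Finset.mem_insert_of_mem
    have n : ∀ i ∈ s, a ≠ i := fun i hi e => ha (e ▸ hi)
    have h1 := ih (fun i h => h5 i (m' i h)) (fun i h => hf i (m' i h)) (fun i h => hg i (m' i h))
      (fun i h j h' => hU i (m' i h) j (m' j h')) (hA.fun_mul (hg a m).measurable)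
      fun i h u k => by
        rw [hi i (m' i h), (hg a m).sh_eq ((hU a m i (m' i h) (n i h)).symm.mono_left
          (hf i (m' i h)))]
    have h2 := cm_step hν (h5 a m) 1 (A := fun k => A k * ∏ i ∈ s, avg (f i) (g i) k)
      (hA.mul (Finset.measurable_prod _ fun i h => measurable_avg _ (hg i (m' i h)).measurable))
      (hg a m).measurable fun u k => by
        rw [hi a m, Finset.prod_congr rfl fun i h => avg_sh (hg i (m' i h)) (hf i (m' i h))
          ((hU a m i (m' i h) (n i h)).mono_left (hf a m)) u k]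
    simp only [ENNReal.ofReal_one, one_mul] at h2
    simp only [Finset.prod_insert ha, ← mul_assoc]
    refine h1.trans (le_trans (le_of_eq ?_) (h2.trans (le_of_eq ?_)))
    · simp only [mul_right_comm]
    · simp only [avg, mul_right_comm (A _)]

/-- Exponential moments of sums of absolute values. -/
theorem lint_sign (hν : IsCanon ν) (J : ℕ) (φ : ℕ → Test) {V : ℝ} (c : ℝ)
    (hV : ∀ sg : ℕ → ℝ, (∀ j, |sg j| ≤ 1) →
      cv (∑ j ∈ Finset.range J, sg j • φ j) (∑ j ∈ Finset.range J, sg j • φ j) ≤ V * J) :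
    ∫⁻ k, ex (c * ∑ j ∈ Finset.range J, |k (φ j)|) ∂ν ≤ (2 * ex (c ^ 2 * V / 2)) ^ J := by
  classical
  let T : Finset ℕ → Test := fun S =>
    c • ∑ j ∈ Finset.range J, (if j ∈ S then (1 : ℝ) else -1) • φ j
  calc _ ≤ ∫⁻ k, ∑ S ∈ (Finset.range J).powerset, ex (k (T S)) ∂ν := lintegral_mono fun k => by
        refine le_trans (le_of_eq ?_) (Finset.single_le_sum (f := fun S => ex (k (T S)))
          (fun _ _ => zero_le) (Finset.mem_powerset.2
            (Finset.filter_subset (fun j => 0 ≤ k (φ j)) _)))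
        simp only [T, map_smul, map_sum, smul_eq_mul]
        congr 2
        refine Finset.sum_congr rfl fun j hj => ?_
        by_cases h : 0 ≤ k (φ j)
        · rw [if_pos (Finset.mem_filter.2 ⟨hj, h⟩), one_mul, abs_of_nonneg h]
        · rw [if_neg fun h' => h (by simpa using (Finset.mem_filter.1 h').2), neg_one_mul,
            abs_of_neg (not_le.1 h)]
    _ ≤ ∑ _S ∈ (Finset.range J).powerset, ex (c ^ 2 * V / 2) ^ J := by
        rw [lintegral_finsetSum _ fun S _ => CMAux.measurable_exe _]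
        refine Finset.sum_le_sum fun S _ => ?_
        rw [hν.lintegral_ex, CMAux.cv_smul, ← ENNReal.rpow_natCast, CMAux.ex_rpow]
        have := hV (fun j => if j ∈ S then 1 else -1) fun j => by split_ifs <;> simp
        exact ex_mono (by nlinarith [sq_nonneg c])
    _ = _ := by
        rw [Finset.sum_const, Finset.card_powerset, Finset.card_range, nsmul_eq_mul, mul_pow]
        norm_num

theorem en0_sum {ι : Type*} (s : Finset ι) (f : ι → Test)
    (h : ∀ i ∈ s, ∀ j ∈ s, i ≠ j → Disjoint (tsupport (f i)) (tsupport (f j))) (sg : ι → ℝ) :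
    logB (∑ j ∈ s, sg j • lap0 (f j)) (∑ j ∈ s, sg j • lap0 (f j)) =
      ∑ j ∈ s, sg j ^ 2 * en0 (f j) := by
  simp only [map_sum, map_smul, LinearMap.sum_apply, LinearMap.smul_apply, smul_eq_mul]
  refine Finset.sum_congr rfl fun i hi => ?_
  rw [Finset.sum_eq_single_of_mem i hi fun j hj hji => ?_, logB_apply, en0]
  · ring
  · rw [logB_apply, logCov_lap0, ← mul_zero (sg j)]
    congr 1
    simp only [mul_comm (lap0 _ _)]
    exact integral_mul_eq_zero (tsupport_lap0 _) fun x hx =>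
      image_eq_zero_of_notMem_tsupport (disjoint_left.1 (h j hj i hi hji) hx)

/-- Integer paths with summable weights on the increments. -/
theorem seq_sum (ω : ℤ → ℝ≥0∞) (J : ℕ) : ∃ (ι : Type) (_ : Countable ι) (N : ι → ℕ → ℤ)
    (w : ι → ℝ≥0∞), ∑' i, w i = (∑' d, ω d) ^ J ∧ ∀ n : ℕ → ℤ, n 0 = 0 →
      ∃ i, (∀ j ≤ J, N i j = n j) ∧ w i = ∏ j ∈ Finset.range J, ω (n (j + 1) - n j) := by
  induction J with
  | zero =>
    exact ⟨Unit, inferInstance, fun _ _ => 0, fun _ => 1, by simp, fun n hn =>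
      ⟨(), fun j hj => by rw [Nat.le_zero.1 hj, hn], rfl⟩⟩
  | succ J ih =>
    obtain ⟨ι, _, N, w, h1, h2⟩ := ih
    refine ⟨ι × ℤ, inferInstance, fun p j => if j ≤ J then N p.1 j else N p.1 J + p.2,
      fun p => w p.1 * ω p.2, ?_, fun n hn => ?_⟩
    · rw [ENNReal.tsum_prod']
      simp only [ENNReal.tsum_mul_left, ENNReal.tsum_mul_right, h1, pow_succ]
    · obtain ⟨i, a, b⟩ := h2 n hn
      refine ⟨(i, n (J + 1) - n J), fun j hj => ?_, by rw [Finset.prod_range_succ, ← b]⟩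
      by_cases h : j ≤ J
      · simp only [if_pos h, a j h]
      · simp only [if_neg h]
        rw [a J le_rfl, show j = J + 1 by omega, add_sub_cancel]

theorem tsum_ex_abs : ∑' d : ℤ, ex (-|(d : ℝ)|) ≠ ⊤ := by
  refine Summable.tsum_ofReal_ne_top (Summable.of_nat_of_neg ?_ ?_) <;>
    simpa using Real.summable_exp_neg_nat

/-- Decoupling of bounded functions in nested regions. -/
theorem bl_fun (hν : IsCanon ν) {M δ : ℝ≥0∞} (hM : M ≠ ⊤) (hδ : 0 < δ) : ∃ ε : ℝ≥0∞, 0 < ε ∧
    ∀ (s : Finset ℕ) (x : ℂ) (α β : ℕ → ℝ) (U : ℕ → Set ℂ) (g : ℕ → Dist → ℝ≥0∞),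
    (∀ i ∈ s, 0 < α i) → (∀ i ∈ s, U i ⊆ ball x (α i)) → (∀ i ∈ s, Disjoint (U i) (ball x (β i))) →
    (∀ i ∈ s, ∀ j ∈ s, i < j → α j ≤ (4 : ℝ)⁻¹ ^ (j - i) * β i) →
    (∀ i ∈ s, Measurable[G0 (U i)] (g i)) → (∀ i ∈ s, ∀ k, g i k ≤ M) →
    (∀ i ∈ s, ∫⁻ k, g i k ∂ν ≤ ε) → ∫⁻ k, ∏ i ∈ s, g i k ∂ν ≤ δ ^ s.card := by
  have := hν.prob
  obtain ⟨C, hC, hb⟩ := hν.bl
  set d := min δ 1 / 2 with hd
  have d0 : d ≠ 0 := (ENNReal.half_pos (lt_min hδ one_pos).ne').ne'
  have d1 : d ≠ ⊤ := (ENNReal.div_lt_top (ne_top_of_le_ne_top ENNReal.one_ne_top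
    (min_le_right _ _)) two_ne_zero).ne
  have q0 : 0 < d / M := ENNReal.div_pos d0 hM
  refine ⟨d * (d / M) ^ C, ENNReal.mul_pos d0 (ENNReal.rpow_pos_of_nonneg q0 (by linarith)).ne',
    fun s x α β U g hα hin hout hr hg hle hε => ?_⟩
  let A : ℕ → Set Dist := fun i => {k | d ≤ g i k}
  have mA : ∀ i ∈ s, MeasurableSet[G0 (U i)] (A i) := fun i hi => hg i hi measurableSet_Ici
  have mI : ∀ i ∈ s, MeasurableSet (A i) := fun i hi => G0_le _ _ (mA i hi)
  have pA : ∀ i ∈ s, ν (A i) ^ (1 / C) ≤ d / M := fun i hi => by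
    have h1 := (mul_meas_ge_le_lintegral ((hg i hi).mono (G0_le _) le_rfl) d).trans (hε i hi)
    rw [ENNReal.mul_le_mul_iff_right d0 d1] at h1
    refine (ENNReal.rpow_le_rpow h1 (by positivity)).trans (le_of_eq ?_)
    rw [← ENNReal.rpow_mul, mul_one_div_cancel (by linarith), ENNReal.rpow_one]
  have pS : ∀ t ⊆ s, ν (⋂ i ∈ t, A i) ≤ (d / M) ^ t.card := fun t ht => by
    refine (hb ℕ t U (fun i j => (4 : ℝ)⁻¹ ^ ((i - j) + (j - i))) A (fun i j => by rw [add_comm])
      (fun i j => by positivity) (fun i hi j hj hij => ⟨?_, ?_⟩)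
      (fun i _ => Setup.sum_lam_le t i) fun i hi => G0_le_Gs _ _ _ (mA i (ht hi))).trans
      (Finset.prod_le_pow_card _ _ _ fun i hi => pA i (ht hi))
    · exact (pow_le_of_le_one (by norm_num) (by norm_num) (by omega)).trans (by norm_num)
    · rcases lt_or_gt_of_ne hij with h | h
      · refine ⟨x, α j, β i, hα j (ht hj), ?_, Or.inr ⟨hin j (ht hj), hout i (ht hi)⟩⟩
        rw [show (i - j) + (j - i) = j - i by omega]
        exact hr i (ht hi) j (ht hj) h
      · refine ⟨x, α i, β j, hα i (ht hi), ?_, Or.inl ⟨hin i (ht hi), hout j (ht hj)⟩⟩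
        rw [show (i - j) + (j - i) = i - j by omega]
        exact hr j (ht hj) i (ht hi) h
  calc _ ≤ ∫⁻ k, ∑ t ∈ s.powerset, (M ^ t.card * d ^ (s.card - t.card)) *
          (⋂ i ∈ t, A i).indicator 1 k ∂ν := lintegral_mono fun k => by
        refine (Finset.prod_le_prod' (g := fun i => M * (A i).indicator 1 k + d)
          fun i hi => ?_).trans (le_of_eq ?_)
        · by_cases h : k ∈ A i
          · rw [indicator_of_mem h, Pi.one_apply, mul_one]
            exact (hle i hi k).trans le_self_add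
          · exact (not_le.1 h).le.trans le_add_self
        · rw [Finset.prod_add]
          refine Finset.sum_congr rfl fun t ht => ?_
          rw [Finset.prod_const, Finset.card_sdiff_of_subset (Finset.mem_powerset.1 ht),
            Finset.prod_mul_distrib, Finset.prod_const, mul_right_comm,
            prod_indicator_const_apply, one_pow]
    _ ≤ ∑ t ∈ s.powerset, d ^ t.card * d ^ (s.card - t.card) := by
        have mt : ∀ t ∈ s.powerset, MeasurableSet (⋂ i ∈ t, A i) := fun t ht =>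
          t.measurableSet_biInter fun i hi => mI i (Finset.mem_powerset.1 ht hi)
        rw [lintegral_finsetSum _ fun t ht => (measurable_one.indicator (mt t ht)).const_mul _]
        refine Finset.sum_le_sum fun t ht => ?_
        rw [lintegral_const_mul _ (measurable_one.indicator (mt t ht)),
          lintegral_indicator_one (mt t ht), mul_right_comm]
        refine mul_le_mul_left ((mul_le_mul_right (pS t (Finset.mem_powerset.1 ht)) _).trans ?_) _
        rw [← mul_pow]
        exact pow_le_pow_left' ENNReal.mul_div_le _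
    _ ≤ _ := by
        rw [Finset.sum_pow_mul_eq_add_pow, hd, ENNReal.add_halves]
        exact pow_le_pow_left' (min_le_left _ _) _

theorem win_le (φ : ℝ → ℝ≥0∞) {m Y : ℝ} (h1 : m ≤ Y) (h2 : Y ≤ m + 2) :
    ∫⁻ u in Icc (0 : ℝ) 1, φ (Y + u) ≤ ∫⁻ c in Icc (0 : ℝ) 3, φ (m + c) := by
  rw [← lintegral_indicator measurableSet_Icc, ← lintegral_indicator measurableSet_Icc,
    ← lintegral_add_left_eq_self (fun c => (Icc (0 : ℝ) 3).indicator (fun c => φ (m + c)) c)
      (Y - m)]
  refine lintegral_mono fun u => indicator_apply_le' (fun hu => ?_) fun _ => zero_le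
  rw [indicator_of_mem (show Y - m + u ∈ Icc (0 : ℝ) 3 from
    ⟨by linarith [hu.1], by linarith [hu.2]⟩), ← add_assoc, add_sub_cancel]

theorem measurable_win {Ω : Type*} [MeasurableSpace Ω] {T : Ω × ℝ → ℝ≥0∞} (hT : Measurable T)
    {Y : Ω → ℝ} (hY : Measurable Y) (S : Set ℝ) :
    Measurable fun ω => ∫⁻ c in S, T (ω, Y ω + c) :=
  (hT.comp (measurable_fst.prodMk ((hY.comp measurable_fst).add
    measurable_snd))).lintegral_prod_right'

end Pool.Agent.QL.GT
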