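import Pool.Agent.P.MP_7a6434d8_pr.QL.GT.LTa

/-! Many consecutive unlikely local events, with the level of the top frame in a window. -/

open MeasureTheory ProbabilityTheory Set Filter Topology Metric
open scoped ENNReal

namespace Pool.Agent.QL

open Pool.Agent.LGD

variable {ν : Measure Dist}

/-- The factor of one frame: the level is in `[lo, hi]` and the local event happens. -/
noncomputable def lfac (F : Fr) (G : Dist → ℝ≥0∞) (lo hi t : ℝ) (k : Dist) : ℝ≥0∞ :=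
  {k | t + Phi F k ∈ Icc lo hi}.indicator (fun k => G (absF F (lev k t))) k

/-- A geometric chain of frames around `z` with unlikely local functions. -/
structure IsChainG (ν : Measure Dist) (ε : ℝ≥0∞) (J : ℕ) (F : ℕ → Fr) (G : ℕ → Dist → ℝ≥0∞)
    (z : ℂ) (r lo hi : ℝ) : Prop where
  top : ‖(F 0).z‖ ≤ 4
  small : r ≤ 1 / 100
  scale : ∀ j ≤ J, ‖(F j).a‖ = r / 256 ^ j
  centre : ∀ j ≤ J, ‖(F j).z - z‖ ≤ r / 256 ^ j / 4
  loc : ∀ j, 1 ≤ j → j ≤ J → Loc (ann 0 2 4) (G j)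
  le_one : ∀ j, 1 ≤ j → j ≤ J → ∀ k, G j k ≤ 1
  rare : ∀ j, 1 ≤ j → j ≤ J → ∀ c ∈ Icc (lo - 3) (hi + 3), ∫⁻ k, G j (lev k c) ∂ν ≤ ε

namespace GT

theorem exists_ring : ∃ B : Test, tsupport B ⊆ ann 0 1 5 ∧ ∀ x ∈ ann 0 2 4, B x = 1 := by
  let b : ContDiffBump (0 : ℂ) := ⟨4, 9 / 2, by norm_num, by norm_num⟩
  let b' : ContDiffBump (0 : ℂ) := ⟨3 / 2, 2, by norm_num, by norm_num⟩
  have e : ∀ x, (toTest b - toTest b' : Test) x = b x - b' x := fun x => by
    change toTest b x - toTest b' x = _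
    rw [toTest_coe b.contDiff b.hasCompactSupport, toTest_coe b'.contDiff b'.hasCompactSupport]
  refine ⟨toTest b - toTest b', (closure_minimal (t := {x | 3 / 2 ≤ ‖x‖ ∧ ‖x‖ ≤ 9 / 2})
    (s := Function.support (toTest b - toTest b' : Test))
    (fun x hx => ⟨not_lt.1 fun h => hx ?_, not_lt.1 fun h => hx ?_⟩)
    ((isClosed_le continuous_const continuous_norm).inter
      (isClosed_le continuous_norm continuous_const))).trans fun x hx => ?_, fun x hx => ?_⟩
  · rw [e, b.one_of_mem_closedBall (mem_closedBall_zero_iff.2 (h.le.trans (by norm_num [b]))),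
      b'.one_of_mem_closedBall (mem_closedBall_zero_iff.2 h.le), sub_self]
  · rw [e, b.zero_of_le_dist (by rw [dist_zero_right]; exact h.le),
      b'.zero_of_le_dist (by rw [dist_zero_right]; exact le_trans (by norm_num [b']) h.le), sub_self]
  · constructor <;> rw [sub_zero] <;> linarith [hx.1, hx.2]
  · obtain ⟨h1, h2⟩ := hx
    rw [sub_zero] at h1 h2
    rw [e, b.one_of_mem_closedBall (mem_closedBall_zero_iff.2 h2.le),
      b'.zero_of_le_dist (by rw [dist_zero_right]; exact h1.le), sub_zero]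

/-- The region of a frame. -/
def reg (F : Fr) : Set ℂ := ann F.z ‖F.a‖ (6 * ‖F.a‖)

theorem aff_mem_reg (F : Fr) : ann 0 2 4 ∪ Psi ⊆ aff F.z F.a ⁻¹' reg F := fun x hx => by
  have h := norm_pos_iff.2 F.a_ne
  have h1 : 1 < ‖x‖ ∧ ‖x‖ < 6 := by
    rcases hx with ⟨h1, h2⟩ | ⟨h1, h2⟩ <;> rw [sub_zero] at h1 h2 <;> constructor <;> linarith
  constructor <;> rw [aff, add_sub_cancel_right, norm_mul] <;> nlinarith [h1.1, h1.2]

theorem supp_up (F : Fr) {B : Test} (hB : tsupport B ⊆ ann 0 1 5) :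
    tsupport (upT F.z F.a B) ⊆ ann F.z ‖F.a‖ (5 * ‖F.a‖) := fun x hx => by
  have h := norm_pos_iff.2 F.a_ne
  obtain ⟨h1, h2⟩ := hB (tsupport_upT _ _ _ hx)
  rw [sub_zero, norm_unaff] at h1 h2
  exact ⟨(one_lt_div h).1 h1, (div_lt_iff₀ h).1 h2⟩

theorem supp_reg (F : Fr) {B : Test} (hB : tsupport B ⊆ ann 0 1 5) :
    tsupport (upT F.z F.a B) ⊆ reg F := fun x hx =>
  ⟨(supp_up F hB hx).1, by linarith [(supp_up F hB hx).2, norm_nonneg F.a]⟩

theorem loc_win (F : Fr) (t lo hi : ℝ) :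
    MeasurableSet[fieldSigma id (reg F)] {k | t + Phi F k ∈ Icc lo hi} :=
  (((loc_eval (tsupport_pushT_subset F.a_ne psi_supp
    (subset_union_right.trans (aff_mem_reg F)))).add_const _).const_add t) measurableSet_Icc

theorem loc_lfac (F : Fr) {G : Dist → ℝ≥0∞} (hG : Loc (ann 0 2 4) G) (lo hi t : ℝ) :
    Loc (reg F) (lfac F G lo hi t) :=
  Measurable.indicator ((hG.absF F (subset_union_left.trans (aff_mem_reg F))).lev t)
    (loc_win F t lo hi)

/-- The local function averaged over a window of levels. -/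
noncomputable def gwin (F : Fr) (G : Dist → ℝ≥0∞) (lo hi m : ℝ) (k : Dist) : ℝ≥0∞ :=
  (Icc (lo - 2) hi).indicator (fun m => ∫⁻ c in Icc (0 : ℝ) 3, G (lev (Tm F.z F.a k) (m + c))) m

theorem three_le {g : ℝ → ℝ≥0∞} {b : ℝ≥0∞} (h : ∀ s ∈ Icc (0 : ℝ) 3, g s ≤ b) :
    ∫⁻ s in Icc (0 : ℝ) 3, g s ≤ 3 * b := by
  refine (setLIntegral_mono' measurableSet_Icc h).trans (le_of_eq ?_)
  rw [setLIntegral_const, Real.volume_Icc, sub_zero, ENNReal.ofReal_ofNat, mul_comm]

theorem gwin_le (F : Fr) {G : Dist → ℝ≥0∞} (hG : ∀ k, G k ≤ 1) (lo hi m : ℝ) (k : Dist) :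
    gwin F G lo hi m k ≤ 3 :=
  (indicator_le_self _ _ m).trans ((three_le fun _ _ => hG _).trans (mul_one _).le)

theorem measurable_gwin (F : Fr) {G : Dist → ℝ≥0∞} (hG : Loc (ann 0 2 4) G) (lo hi : ℝ)
    {V : Set ℂ} (hV : reg F ⊆ V) {Y : Dist → ℝ} (hY : Measurable[G0 V] Y) :
    Measurable[G0 V] fun k => gwin F G lo hi (Y k) k :=
  Measurable.indicator (s := Y ⁻¹' Icc (lo - 2) hi) (@measurable_win _ (G0 V) _
    (hG.tm_prod F.a_ne ((aff_mem_reg F).trans (preimage_mono hV))) _ hY _) (hY measurableSet_Icc)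

theorem lintegral_gwin (hν : IsCanon ν) (F : Fr) {G : Dist → ℝ≥0∞} (hG : Measurable G)
    {lo hi : ℝ} {ε : ℝ≥0∞} (h : ∀ c ∈ Icc (lo - 3) (hi + 3), ∫⁻ k, G (lev k c) ∂ν ≤ ε) (m : ℝ) :
    ∫⁻ k, gwin F G lo hi m k ∂ν ≤ 3 * ε := by
  have := hν.prob
  by_cases hm : m ∈ Icc (lo - 2) hi
  · simp only [gwin, indicator_of_mem hm]
    rw [lintegral_lintegral_swap (f := fun k c => G (lev (Tm F.z F.a k) (m + c)))
      (hG.comp (measurable_lev.comp (((measurable_Tm _ _).comp measurable_fst).prodMk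
        (measurable_snd.const_add m)))).aemeasurable]
    refine three_le fun s hs => le_trans (le_of_eq ?_) (h (m + s)
      ⟨by linarith [hm.1, hs.1], by linarith [hm.2, hs.2]⟩)
    exact (hν.Tm_mp F.a_ne F.z).lintegral_comp (hG.comp (measurable_lev_const _))
  · simp only [gwin, indicator_of_notMem hm, lintegral_zero, zero_le]

theorem avg_lfac (F : Fr) {B : Test} (hB : tsupport B ⊆ ann 0 1 5)
    (hB1 : ∀ x ∈ ann 0 2 4, B x = 1) {G : Dist → ℝ≥0∞} (hG : Loc (ann 0 2 4) G) (lo hi t : ℝ)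
    (k : Dist) {m : ℝ} (h1 : m ≤ t + Phi F k) (h2 : t + Phi F k ≤ m + 2) :
    avg (upT F.z F.a B) (lfac F G lo hi t) k ≤
      ex |k (lap0 (upT F.z F.a B))| * gwin F G lo hi m k := by
  have e1 : ∀ s, Phi F (sh (upT F.z F.a B) s k) = Phi F k := fun s =>
    Loc.sh_eq ((loc_eval (tsupport_psi_ball F.a_ne F.z)).add_const _)
      (disjoint_left.2 fun x hx hx' => (supp_up F hB hx).2.not_gt hx'.1) s k
  have e2 : ∀ s, G (absF F (lev (sh (upT F.z F.a B) s k) t)) =
      G (lev (Tm F.z F.a k) (t + Phi F k + s)) := fun s => by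
    rw [← lev_lev, ← absF_lev]
    refine hG.eq_of_agree fun φ hφ => ?_
    rw [lev_apply, absF_apply, absF_apply, lev_apply, lev_apply, sh_apply,
      integral_mul_pushT F.a_ne]
    simp only [upT_apply F.a_ne, unaff_aff F.a_ne, pair_const hB1 hφ]
    ring
  refine mul_le_mul_right ?_ _
  by_cases h : t + Phi F k ∈ Icc lo hi
  · rw [gwin, indicator_of_mem (show m ∈ Icc (lo - 2) hi from ⟨by linarith [h.1], h1.trans h.2⟩)]
    refine le_trans (lintegral_mono fun s => ?_)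
      (win_le (fun c => G (lev (Tm F.z F.a k) c)) h1 h2)
    exact (indicator_le_self _ _ _).trans (e2 s).le
  · refine le_trans (le_of_eq ?_) zero_le
    rw [← lintegral_zero (μ := volume.restrict (Icc (0 : ℝ) 1))]
    exact lintegral_congr fun s => indicator_of_notMem (by rwa [mem_ofPred_eq, e1]) _

theorem ex_sum {ι : Type*} (s : Finset ι) (x : ι → ℝ) : ex (∑ i ∈ s, x i) = ∏ i ∈ s, ex (x i) := by
  rw [ex, Real.exp_sum, ENNReal.ofReal_prod_of_nonneg fun _ _ => (Real.exp_pos _).le]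
  rfl

/-- The increment between consecutive frames. -/
noncomputable def dif (F : ℕ → Fr) (j : ℕ) : Test :=
  pushT (F j).z (F j).a psi - pushT (F (j + 1)).z (F (j + 1)).a psi

end GT

open _root_.Pool.Agent.QL.GT

namespace IsChainG

variable {ε : ℝ≥0∞} {J : ℕ} {F : ℕ → Fr} {G : ℕ → Dist → ℝ≥0∞} {z : ℂ} {r lo hi : ℝ}
  (h : IsChainG ν ε J F G z r lo hi)
include h

theorem a0 : ‖(F 0).a‖ = r := by simpa using h.scale 0 J.zero_le

theorem pos : 0 < r := h.a0 ▸ norm_pos_iff.2 (F 0).a_ne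

theorem hin {j : ℕ} (hj : j ≤ J) : reg (F j) ⊆ ball z (25 / 4 * (r / 256 ^ j)) := fun x hx => by
  have h1 := hx.2
  rw [h.scale j hj] at h1
  rw [mem_ball_iff_norm]
  linarith [norm_sub_le_norm_sub_add_norm_sub x (F j).z z, h.centre j hj]

theorem hout {j : ℕ} (hj : j ≤ J) : Disjoint (reg (F j)) (ball z (3 / 4 * (r / 256 ^ j))) :=
  disjoint_left.2 fun x hx hx' => by
    have h1 := hx.1
    rw [h.scale j hj] at h1
    rw [mem_ball_iff_norm] at hx'
    linarith [norm_sub_le_norm_sub_add_norm_sub x z (F j).z, h.centre j hj, norm_sub_rev z (F j).z]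

theorem ratio {i j : ℕ} (hij : i < j) :
    25 / 4 * (r / 256 ^ j) ≤ (4 : ℝ)⁻¹ ^ (j - i) * (3 / 4 * (r / 256 ^ i)) := by
  obtain ⟨n, rfl⟩ := Nat.exists_eq_add_of_lt hij
  have h0 := h.pos
  have e : 25 / 4 * (r / 256 ^ (i + n + 1)) =
      (4 : ℝ)⁻¹ ^ (n + 1) * (25 / 256 / 64 ^ n * (r / 256 ^ i)) := by
    rw [pow_succ, pow_add, show (256 : ℝ) ^ n = 4 ^ n * 64 ^ n by rw [← mul_pow]; norm_num, inv_pow]
    field_simp
    ring
  rw [e, show i + n + 1 - i = n + 1 by omega]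
  have h1 : (25 / 256 : ℝ) / 64 ^ n ≤ 25 / 256 :=
    div_le_self (by norm_num) (one_le_pow₀ (by norm_num))
  exact mul_le_mul_of_nonneg_left (mul_le_mul_of_nonneg_right (by linarith) (by positivity))
    (by positivity)

theorem disj {i j : ℕ} (hi' : i ≤ J) (hj : j ≤ J) (hij : i ≠ j) :
    Disjoint (reg (F i)) (reg (F j)) := by
  wlog hl : i < j generalizing i j
  · exact (this hj hi' hij.symm (by omega)).symm
  have h0 := h.pos
  exact (h.hout hi').mono_right ((h.hin hj).trans (ball_subset_ball ((h.ratio hl).trans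
    (mul_le_of_le_one_left (by positivity) (pow_le_one₀ (by norm_num) (by norm_num))))))

theorem big {j : ℕ} (hj : j ≤ J) :
    ball (F j).z (6 * ‖(F j).a‖) ⊆ ball (F 0).z (16 * ‖(F 0).a‖) := by
  refine ball_subset_ball' ?_
  have h1 := h.centre 0 J.zero_le
  have h2 : r / 256 ^ j ≤ r := div_le_self h.pos.le (one_le_pow₀ (by norm_num))
  rw [pow_zero, div_one] at h1
  rw [h.scale j hj, h.a0, dist_eq_norm]
  linarith [norm_sub_le_norm_sub_add_norm_sub (F j).z z (F 0).z, h.centre j hj,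
    norm_sub_rev z (F 0).z, h.pos]

theorem big' {j : ℕ} (hj : j ≤ J) : reg (F j) ⊆ ball (F 0).z (16 * ‖(F 0).a‖) :=
  fun _ hx => h.big hj (mem_ball_iff_norm.2 hx.2)

theorem step {j : ℕ} (hj : j < J) (k : Dist) :
    |((⌊Phi (F (j + 1)) k - Phi (F 0) k⌋ - ⌊Phi (F j) k - Phi (F 0) k⌋ : ℤ) : ℝ)| ≤
      |k (dif F j)| + (|QQ * Real.log 256| + 1) := by
  have h0 := h.pos
  have e : Phi (F j) k - Phi (F (j + 1)) k = k (dif F j) + QQ * Real.log 256 := by
    rw [Phi, Phi, h.scale j hj.le, h.scale _ hj, dif, map_sub, pow_succ, ← div_div,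
      Real.log_div (x := r / 256 ^ j) (by positivity) (by norm_num), Xm, Xm]
    ring
  have h1 := abs_le.1 (abs_add_le (k (dif F j)) (QQ * Real.log 256))
  rw [Int.cast_sub, abs_le]
  constructor <;> linarith [h1.1, h1.2, Int.floor_le (Phi (F (j + 1)) k - Phi (F 0) k),
    Int.floor_le (Phi (F j) k - Phi (F 0) k), Int.lt_floor_add_one (Phi (F j) k - Phi (F 0) k),
    Int.lt_floor_add_one (Phi (F (j + 1)) k - Phi (F 0) k)]

end IsChainG

theorem GT.chain_var : ∃ V : ℝ, ∀ (ε : ℝ≥0∞) (J : ℕ) (F : ℕ → Fr) (G : ℕ → Dist → ℝ≥0∞) (z : ℂ)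
    (r lo hi : ℝ), IsChainG ν ε J F G z r lo hi → ∀ sg : ℕ → ℝ, (∀ j, |sg j| ≤ 1) →
    cv (∑ j ∈ Finset.range J, sg j • dif F j) (∑ j ∈ Finset.range J, sg j • dif F j) ≤ V * J := by
  obtain ⟨V, -, hV⟩ := TailsAux.inc_var
  refine ⟨V, fun ε J F G z r lo hi h sg hs => ?_⟩
  have h0 := h.pos
  have e0 : ∀ k ≤ J, pushT (F (J - k)).z ((r / 256 ^ J * 256 ^ k : ℝ) : ℂ) psi =
      pushT (F (J - k)).z (F (J - k)).a psi := fun k hk => pushT_psi_congr (by
    rw [h.scale _ (Nat.sub_le _ _), Complex.norm_of_nonneg (by positivity),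
      pow_sub₀ _ (by norm_num) hk]
    field_simp) _
  have e : ∑ j ∈ Finset.range J, sg j • dif F j = ∑ k ∈ Finset.range J,
      sg (J - 1 - k) • TailsAux.inc (r / 256 ^ J) (fun k => (F (J - k)).z) k := by
    rw [← Finset.sum_range_reflect]
    refine Finset.sum_congr rfl fun k hk => ?_
    have hk' := Finset.mem_range.1 hk
    rw [TailsAux.inc, TailsAux.fr, TailsAux.fr, e0 k hk'.le, e0 _ hk', dif,
      show J - 1 - k + 1 = J - k by omega, show J - 1 - k = J - (k + 1) by omega]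
  rw [TailsAux.cv_eq (TailsAux.mean_sum _ _ fun k _ => by
    rw [integral_test_smul, dif, TailsAux.mean_sub (F _).a_ne (F _).a_ne, mul_zero]), e]
  refine hV z _ _ _ (by positivity) (fun k => (h.centre _ (Nat.sub_le _ _)).trans ?_)
    (fun k => hs _) J
  refine div_le_div_of_nonneg_right ?_ (by norm_num)
  rw [div_mul_eq_mul_div, div_le_div_iff₀ (by positivity) (by positivity), mul_assoc, ← pow_add]
  exact mul_le_mul_of_nonneg_left (pow_le_pow_right₀ (by norm_num) (by omega)) h0.le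

theorem ltail (hν : IsCanon ν) : ∃ C c : ℝ, 0 < C ∧ 0 < c ∧ ∀ ε' : ℝ≥0∞, 0 < ε' →
    ∃ ε : ℝ≥0∞, 0 < ε ∧ ∀ (J : ℕ) (F : ℕ → Fr) (G : ℕ → Dist → ℝ≥0∞) (z : ℂ) (r lo hi t y : ℝ),
    IsChainG ν ε J F G z r lo hi →
    ∫⁻ k in {k | t + Phi (F 0) k ∈ Icc y (y + 1)},
        ∏ j ∈ Finset.range J, lfac (F (j + 1)) (G (j + 1)) lo hi t k ∂ν ≤
      gw C c (-Real.log r) (y - t - QQ * Real.log r) * ε' ^ J := by
  obtain ⟨B, hB, hB1⟩ := exists_ring
  obtain ⟨C, c, hC, hc, h0⟩ := lt0 hν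
  obtain ⟨V, hV⟩ := chain_var (ν := ν)
  refine ⟨C, c, hC, hc, fun ε' hε' => ?_⟩
  set K₁ := 2 * ex (8 ^ 2 * en0 B / 2) + 2 * ex (2 ^ 2 * V / 2) with hK₁
  set K₂ := 27 * ex (|QQ * Real.log 256| + 1) with hK₂
  set S := ∑' d : ℤ, ex (-|(d : ℝ)|) with hS
  have hK : K₁ * (K₂ * S) ≠ ⊤ :=
    ENNReal.mul_ne_top (ENNReal.add_ne_top.2 ⟨ENNReal.mul_ne_top (by norm_num) (ex_ne_top' _),
      ENNReal.mul_ne_top (by norm_num) (ex_ne_top' _)⟩) (ENNReal.mul_ne_top
        (ENNReal.mul_ne_top (by norm_num) (ex_ne_top' _)) tsum_ex_abs)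
  obtain ⟨ε₀, hε₀, hb⟩ := bl_fun hν (M := 3) (by norm_num)
    (ENNReal.div_pos (pow_ne_zero 4 hε'.ne') hK)
  refine ⟨ε₀ / 3, ENNReal.div_pos hε₀.ne' (by norm_num), fun J F G z r lo hi t y h => ?_⟩
  have r0 := h.pos
  have m : ∀ {j}, j ∈ Finset.range J → j + 1 ≤ J := Finset.mem_range.1
  have hG : ∀ j ∈ Finset.range J, Loc (ann 0 2 4) (G (j + 1)) := fun j hj =>
    h.loc _ (Nat.le_add_left _ _) (m hj)
  let f : ℕ → Test := fun j => upT (F (j + 1)).z (F (j + 1)).a B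
  let n : Dist → ℕ → ℤ := fun k j => ⌊Phi (F j) k - Phi (F 0) k⌋
  let g : ℕ → ℤ → Dist → ℝ≥0∞ := fun j l => gwin (F (j + 1)) (G (j + 1)) lo hi (y + l)
  let H : Dist → ℝ≥0∞ := fun k => ∏ j ∈ Finset.range J, ex |k (lap0 (f j))| * g j (n k (j + 1)) k
  have mW := field_le _ _ (loc_win (F 0) t y (y + 1))
  have hd : ∀ i ∈ Finset.range J, ∀ j ∈ Finset.range J, i ≠ j →
      Disjoint (reg (F (i + 1))) (reg (F (j + 1))) := fun i a j b e => h.disj (m a) (m b) (by omega)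
  have h1 := multi_step hν (Finset.range J) (fun j => reg (F (j + 1))) f
    (fun j => lfac (F (j + 1)) (G (j + 1)) lo hi t)
    (fun j hj => (supp_reg _ hB).trans ((h.big' (m hj)).trans (ball_subset_ball' (by
      rw [h.a0, dist_zero_right]; linarith [h.top, h.small]))))
    (fun j _ => supp_reg _ hB) (fun j hj => loc_lfac _ (hG j hj) _ _ _) hd
    (measurable_one.indicator mW) fun j hj => Loc.sh_eq (U := reg (F 0))
      (Measurable.indicator (@measurable_one _ _ _ (fieldSigma id _) _) (loc_win (F 0) t y (y + 1)))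
      ((h.disj (m hj) J.zero_le j.succ_ne_zero).mono_left (supp_reg _ hB))
  have mH : Measurable[G0 (ball (F 0).z (16 * ‖(F 0).a‖))] H := by
    refine @Finset.measurable_prod _ _ _ _ _ _ (G0 _) _ _ fun j hj => Measurable.fun_mul
      ((CMAux.measurable_ex.comp measurable_abs).comp (measurable_G0 (integral_lap0 _)
        ((tsupport_lap0 _).trans ((supp_reg _ hB).trans (h.big' (m hj))))))
      (measurable_gwin _ (hG j hj) lo hi (h.big' (m hj)) (Measurable.const_add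
        ((measurable_from_top (f := fun l : ℤ => (l : ℝ))).comp (Int.measurable_floor.comp ?_)) y))
    have := (measurable_Xsub (F (j + 1)).a_ne (F 0).a_ne (h.big (m hj)) (h.big J.zero_le)).add_const
      (QQ * Real.log ‖(F (j + 1)).a‖ - QQ * Real.log ‖(F 0).a‖)
    simpa only [Phi, add_sub_add_comm] using this
  obtain ⟨ι, _, N, w, w1, w2⟩ := seq_sum (fun d => ex (-|(d : ℝ)|)) J
  have mg : ∀ (i : ι), ∀ j ∈ Finset.range J, Measurable[G0 (reg (F (j + 1)))] (g j (N i (j + 1))) :=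
    fun i j hj => measurable_gwin _ (hG j hj) lo hi Subset.rfl (@measurable_const _ _ _ (G0 _) _)
  have mp : ∀ i : ι, Measurable fun k => ∏ j ∈ Finset.range J, g j (N i (j + 1)) k := fun i =>
    Finset.measurable_prod _ fun j hj => (mg i j hj).mono (G0_le _) le_rfl
  have ms : ∀ (φ : ℕ → Test) (a : ℝ), Measurable fun k : Dist =>
      ex (a * ∑ j ∈ Finset.range J, |k (φ j)|) := fun φ a => CMAux.measurable_ex.comp
    ((Finset.measurable_sum _ fun j _ => (measurable_eval _).abs).const_mul a)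
  have h2 := lint_cs' ν (F := fun k => H k ^ 2) ((ms (fun j => lap0 (f j)) 4).fun_mul (ms (dif F) 1))
    (B := fun k => K₂ ^ J * ∑' i, w i * ∏ j ∈ Finset.range J, g j (N i (j + 1)) k)
    ((Measurable.tsum fun i => (mp i).const_mul _).const_mul _) fun k => by
      obtain ⟨i, a, b⟩ := w2 (n k) (by simp [n])
      refine le_trans ?_ (mul_le_mul_right (mul_le_mul_right (ENNReal.le_tsum i) _) _)
      rw [b, ← pow_mul, ← Finset.prod_pow, Finset.mul_sum, Finset.mul_sum, ex_sum, ex_sum,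
        ← Finset.card_range J, ← Finset.prod_const, Finset.card_range, ← Finset.prod_mul_distrib,
        ← Finset.prod_mul_distrib, ← Finset.prod_mul_distrib, ← Finset.prod_mul_distrib]
      refine Finset.prod_le_prod' fun j hj => ?_
      have g3 := pow_le_pow_left' (gwin_le (F (j + 1)) (h.le_one _ (Nat.le_add_left _ _) (m hj))
        lo hi (y + n k (j + 1)) k) 3
      have e1 : (1 : ℝ≥0∞) ≤ ex (1 * |k (dif F j)|) * ex (|QQ * Real.log 256| + 1) *
          ex (-|((n k (j + 1) - n k j : ℤ) : ℝ)|) := by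
        rw [← CMAux.ex_add, ← CMAux.ex_add, show (1 : ℝ≥0∞) = ex 0 by simp [ex]]
        exact ex_mono (by linarith [h.step (m hj) k])
      rw [a _ (m hj), mul_pow, ← ENNReal.rpow_natCast, CMAux.ex_rpow]
      calc _ = ex (4 * |k (lap0 (f j))|) * (1 * (g j (n k (j + 1)) k ^ 3 * g j (n k (j + 1)) k)) := by
            rw [one_mul, ← pow_succ]
            norm_num
        _ ≤ _ := mul_le_mul_right (mul_le_mul' e1 (mul_le_mul_left g3 _)) _
        _ = _ := by
            rw [hK₂]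
            ring
  have h3 : ∫⁻ k, ex (4 * ∑ j ∈ Finset.range J, |k (lap0 (f j))|) *
      ex (1 * ∑ j ∈ Finset.range J, |k (dif F j)|) ∂ν ≤ K₁ ^ J := by
    refine le_of_sq_le_sq' ((lint_cs ν (ms _ _).aemeasurable (ms _ _).aemeasurable).trans ?_)
    simp only [ex_sq, ← mul_assoc]
    rw [sq, show (2 : ℝ) * 4 = 8 by norm_num, mul_one]
    refine mul_le_mul' ((lint_sign hν J _ 8 (V := en0 B) fun sg hs => ?_).trans
      (pow_le_pow_left' le_self_add J))
      ((lint_sign hν J _ 2 (hV _ J F G z r lo hi h)).trans (pow_le_pow_left' le_add_self J))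
    rw [TailsAux.cv_eq (TailsAux.mean_sum _ _ fun k _ => by
      rw [integral_test_smul, integral_lap0, mul_zero]), en0_sum _ _ fun i a j b e =>
        (hd i a j b e).mono (supp_reg _ hB) (supp_reg _ hB)]
    refine (Finset.sum_le_card_nsmul _ _ (en0 B) fun j _ => ?_).trans (by simp [mul_comm])
    rw [en0_upT (F _).a_ne]
    exact mul_le_of_le_one_left (en0_nonneg hν B) ((sq_le_one_iff_abs_le_one _).2 (hs j))
  have h4 : ∫⁻ k, K₂ ^ J * ∑' i, w i * ∏ j ∈ Finset.range J, g j (N i (j + 1)) k ∂ν ≤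
      (K₂ * S * (ε' ^ 4 / (K₁ * (K₂ * S)))) ^ J := by
    rw [lintegral_const_mul _ (Measurable.tsum fun i => (mp i).const_mul _),
      lintegral_tsum fun i => ((mp i).const_mul _).aemeasurable, mul_pow (K₂ * S), mul_pow K₂,
      mul_assoc, ← w1, ← ENNReal.tsum_mul_right]
    refine mul_le_mul_right (ENNReal.tsum_le_tsum fun i => ?_) _
    rw [lintegral_const_mul _ (mp i)]
    refine mul_le_mul_right ((hb _ z (fun j => 25 / 4 * (r / 256 ^ (j + 1)))
      (fun j => 3 / 4 * (r / 256 ^ (j + 1))) _ _ (fun j _ => by positivity)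
      (fun j hj => h.hin (m hj)) (fun j hj => h.hout (m hj)) (fun i _ j _ e => ?_) (mg i)
      (fun j hj k => gwin_le _ (h.le_one _ (Nat.le_add_left _ _) (m hj)) _ _ _ _)
      fun j hj => ?_).trans (by rw [Finset.card_range])) _
    · simpa only [Nat.add_sub_add_right] using h.ratio (Nat.add_lt_add_right e 1)
    · exact (lintegral_gwin hν _ (hG j hj).measurable (h.rare _ (Nat.le_add_left _ _) (m hj))
        _).trans ENNReal.mul_div_le
  have h5 : ∫⁻ k, H k ^ 2 ∂ν ≤ (ε' ^ J) ^ 2 := by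
    refine le_of_sq_le_sq' (h2.trans ((mul_le_mul' h3 h4).trans ?_))
    rw [← mul_pow, ← mul_assoc, ← pow_mul, ← pow_mul, mul_comm J, pow_mul]
    exact pow_le_pow_left' ENNReal.mul_div_le J
  have h6 := h0 _ _ h.top (F 0).a_ne (h.a0.trans_le h.small) H mH _ h5 (y - t - QQ * Real.log r)
  have e : {k | Xm (F 0).z (F 0).a k ∈ Icc (y - t - QQ * Real.log r) (y - t - QQ * Real.log r + 1)}
      = {k | t + Phi (F 0) k ∈ Icc y (y + 1)} := by
    ext k
    simp only [Phi, h.a0, mem_ofPred_eq, mem_Icc]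
    constructor <;> rintro ⟨a, b⟩ <;> constructor <;> linarith
  rw [e, h.a0] at h6
  refine le_trans ?_ h6
  rw [← lintegral_indicator mW, ← lintegral_indicator mW]
  refine le_trans (le_of_eq (lintegral_congr fun k => ?_)) (h1.trans (lintegral_mono fun k => ?_))
  · rw [← indicator_mul_left (g := fun k => ∏ j ∈ Finset.range J,
      lfac (F (j + 1)) (G (j + 1)) lo hi t k)]
    simp only [Pi.one_apply, one_mul]
  · by_cases hk : k ∈ {k | t + Phi (F 0) k ∈ Icc y (y + 1)}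
    · rw [indicator_of_mem hk, indicator_of_mem hk, Pi.one_apply, one_mul]
      refine Finset.prod_le_prod' fun j hj => avg_lfac _ hB hB1 (hG j hj) lo hi t k ?_ ?_
      · linarith [hk.1, Int.floor_le (Phi (F (j + 1)) k - Phi (F 0) k)]
      · linarith [hk.2, Int.lt_floor_add_one (Phi (F (j + 1)) k - Phi (F 0) k)]
    · rw [indicator_of_notMem hk, zero_mul]
      exact zero_le

/-- The same without the window. -/
theorem ltail_sum (hν : IsCanon ν) : ∃ C : ℝ≥0∞, C ≠ ⊤ ∧ ∀ ε' : ℝ≥0∞, 0 < ε' →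
    ∃ ε : ℝ≥0∞, 0 < ε ∧ ∀ (J : ℕ) (F : ℕ → Fr) (G : ℕ → Dist → ℝ≥0∞) (z : ℂ) (r lo hi t : ℝ),
    IsChainG ν ε J F G z r lo hi →
    ∫⁻ k, ∏ j ∈ Finset.range J, lfac (F (j + 1)) (G (j + 1)) lo hi t k ∂ν ≤ C * ε' ^ J := by
  obtain ⟨C, c, hC, hc, h⟩ := ltail hν
  obtain ⟨C', hC'⟩ := gw_tsum hC.le hc
  refine ⟨ENNReal.ofReal C', ENNReal.ofReal_ne_top, fun ε' hε' => ?_⟩
  obtain ⟨ε, hε, h1⟩ := h ε' hε'
  refine ⟨ε, hε, fun J F G z r lo hi t hc => ?_⟩
  have e : (univ : Set Dist) = ⋃ y : ℤ, {k | t + Phi (F 0) k ∈ Icc (y : ℝ) (y + 1)} :=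
    Eq.symm (iUnion_eq_univ_iff.2 fun k =>
      ⟨⌊t + Phi (F 0) k⌋, Int.floor_le _, (Int.lt_floor_add_one _).le⟩)
  rw [← setLIntegral_univ, e]
  refine (lintegral_iUnion_le _ _).trans
    ((ENNReal.tsum_le_tsum fun y : ℤ => h1 J F G z r lo hi t y hc).trans ?_)
  simp only [sub_sub]
  rw [ENNReal.tsum_mul_right]
  exact mul_le_mul_left (hC' _ _ (one_le_neg_log hc.pos hc.small)) _

end Pool.Agent.QL
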