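import Pool.Agent.P.MP_7a6434d8_pr.QL.GT.Basic

/-! Cameron-Martin shifts along one test function. -/

open MeasureTheory ProbabilityTheory Set Filter Topology Metric
open scoped ENNReal

namespace Pool.Agent.QL

open Pool.Agent.LGD

/-- The shift `k + s f`. -/
noncomputable def sh (f : Test) (s : ℝ) (k : Dist) : Dist := k + s • ofFun f

/-- The energy of `f`, which is the variance of `k (lap0 f)`. -/
noncomputable def en0 (f : Test) : ℝ := logCov (lap0 f) (lap0 f)

theorem sh_apply (f : Test) (s : ℝ) (k : Dist) (φ : Test) :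
    sh f s k φ = k φ + s * ∫ x, f x * φ x := by
  rw [← ofFun_apply f.continuous]
  rfl

theorem measurable_sh (f : Test) : Measurable fun p : Dist × ℝ => sh f p.2 p.1 :=
  measurable_toDist fun φ => by
    simp only [sh_apply]
    exact ((measurable_eval φ).comp measurable_fst).add (measurable_snd.mul_const _)

theorem measurable_sh_const (f : Test) (s : ℝ) : Measurable (sh f s) :=
  measurable_toDist fun φ => by
    simp only [sh_apply]
    exact (measurable_eval φ).add_const _

theorem sh_sh (f : Test) (s t : ℝ) (k : Dist) : sh f s (sh f t k) = sh f (s + t) k := by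
  simp only [sh, add_smul, add_assoc, add_comm (t • ofFun f)]

theorem sh_zero (f : Test) (k : Dist) : sh f 0 k = k := by simp only [sh, zero_smul, add_zero]

theorem sh_lev (f : Test) (s t : ℝ) (k : Dist) : sh f s (lev k t) = lev (sh f s k) t := by
  simp only [sh, lev, add_right_comm]

theorem en0_eq (f : Test) : en0 f = ∫ x, f x * lap0 f x := by
  rw [en0, logCov_lap0]
  simp only [mul_comm]

theorem ex_mono {x y : ℝ} (h : x ≤ y) : ex x ≤ ex y :=
  ENNReal.ofReal_le_ofReal (Real.exp_le_exp.2 h)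

theorem ex_sq (x : ℝ) : ex x ^ 2 = ex (2 * x) := by rw [sq, ← CMAux.ex_add, two_mul]

theorem ex_ne_top' (x : ℝ) : ex x ≠ ⊤ := ENNReal.ofReal_ne_top

/-- Cauchy-Schwarz. -/
theorem lint_cs {Ω : Type*} [MeasurableSpace Ω] (μ : Measure Ω) {f g : Ω → ℝ≥0∞}
    (hf : AEMeasurable f μ) (hg : AEMeasurable g μ) :
    (∫⁻ x, f x * g x ∂μ) ^ 2 ≤ (∫⁻ x, f x ^ 2 ∂μ) * ∫⁻ x, g x ^ 2 ∂μ := by
  have h := ENNReal.lintegral_mul_le_Lp_mul_Lq μ Real.HolderConjugate.two_two hf hg
  have e : ∀ a : ℝ≥0∞, (a ^ (1 / 2 : ℝ)) ^ 2 = a := fun a => by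
    rw [← ENNReal.rpow_two, ← ENNReal.rpow_mul]
    norm_num
  simp only [ENNReal.rpow_two] at h
  refine (pow_le_pow_left' h 2).trans (le_of_eq ?_)
  rw [mul_pow, e, e]

theorem le_of_sq_le_sq' {a b : ℝ≥0∞} (h : a ^ 2 ≤ b ^ 2) : a ≤ b :=
  (ENNReal.pow_le_pow_left_iff two_ne_zero).1 h

theorem psi_pair {f : Test} (hf : tsupport f ⊆ ball 0 5) : ∫ x, f x * psi x = 0 :=
  integral_mul_eq_zero psi_supp fun x hx => image_eq_zero_of_notMem_tsupport fun h => by
    have h1 := hf h
    have h2 := hx.1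
    rw [sub_zero] at h2
    rw [mem_ball, dist_zero_right] at h1
    exact absurd h1 h2.not_gt

variable {ν : Measure Dist}

theorem en0_nonneg (hν : IsCanon ν) (f : Test) : 0 ≤ en0 f := hν.logCov_nonneg _ (integral_lap0 f)

theorem cv_lap0 {f : Test} (hf : tsupport f ⊆ ball 0 5) (χ : Test) :
    cv χ (lap0 f) = ∫ x, f x * χ x := by
  rw [← integral_shift _ (integral_lap0 f)]
  simp only [LGD.shift, green, psi_pair hf, sub_zero]

theorem cm_sh (hν : IsCanon ν) {f : Test} (hf : tsupport f ⊆ ball 0 5) (s : ℝ)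
    {F : Dist → ℝ≥0∞} (hF : Measurable F) :
    ∫⁻ k, F (sh f s k) ∂ν = ∫⁻ k, ex (s * k (lap0 f) - s ^ 2 * en0 f / 2) * F k ∂ν := by
  have h0 : ∫ x, (s • lap0 f) x = 0 := by rw [integral_test_smul, integral_lap0, mul_zero]
  have h := hν.cm_lintegral (s • lap0 f) h0 hF
  have e1 : ∀ k, Sm (LGD.shift (s • lap0 f)) k = sh f s k := fun k => by
    ext φ
    rw [Sm_apply (shift_continuous _), sh_apply]
    simp only [LGD.shift, pot_smul, green, mul_assoc, integral_const_mul, psi_pair hf, mul_zero,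
      sub_zero]
  have e2 : logCov (s • lap0 f : Test) (s • lap0 f : Test) = s ^ 2 * en0 f := by
    rw [logCov_smul_left, logCov_smul_right, en0]
    ring
  simp only [e1, e2, map_smul, smul_eq_mul] at h
  exact h.symm

theorem lintegral_ex_lap (hν : IsCanon ν) (f : Test) (s : ℝ) :
    ∫⁻ k, ex (s * k (lap0 f)) ∂ν = ex (s ^ 2 * en0 f / 2) := by
  have h := hν.lintegral_ex (s • lap0 f)
  rw [CMAux.cv_smul, CMAux.cv_self (integral_lap0 f)] at h
  simpa only [map_smul, smul_eq_mul, en0] using h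

theorem ex_abs_le (x : ℝ) : ex |x| ≤ ex x + ex (-x) := by
  rcases abs_choice x with h | h <;> rw [h]
  · exact le_self_add
  · exact le_add_self

theorem lintegral_ex_abs (hν : IsCanon ν) (f : Test) {s : ℝ} (hs : 0 ≤ s) :
    ∫⁻ k, ex (s * |k (lap0 f)|) ∂ν ≤ 2 * ex (s ^ 2 * en0 f / 2) := by
  have m : Measurable fun k : Dist => ex (s * k (lap0 f)) :=
    CMAux.measurable_ex.comp ((measurable_eval _).const_mul s)
  calc _ ≤ ∫⁻ k, (ex (s * k (lap0 f)) + ex (-s * k (lap0 f))) ∂ν := lintegral_mono fun k => by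
        rw [← abs_of_nonneg hs, ← abs_mul, abs_of_nonneg hs, neg_mul]
        exact ex_abs_le _
    _ = _ := by
        rw [lintegral_add_left m, lintegral_ex_lap hν, lintegral_ex_lap hν, neg_sq, two_mul]

/-- Averaging over shifts of size at most `l`. -/
theorem cm_step (hν : IsCanon ν) {f : Test} (hf : tsupport f ⊆ ball 0 5) (l : ℝ)
    {A g : Dist → ℝ≥0∞} (hA : Measurable A) (hg : Measurable g)
    (hi : ∀ s k, A (sh f s k) = A k) :
    ENNReal.ofReal l * ∫⁻ k, A k * g k ∂ν ≤
      ∫⁻ k, A k * (ex (l * |k (lap0 f)|) * ∫⁻ s in Icc 0 l, g (sh f s k)) ∂ν := by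
  have := hν.prob
  have mx : Measurable fun k : Dist => ex (l * |k (lap0 f)|) :=
    CMAux.measurable_ex.comp ((measurable_eval _).abs.const_mul l)
  have mg : Measurable fun p : Dist × ℝ => g (sh f p.2 p.1) := hg.comp (measurable_sh f)
  have h1 : ∀ s ∈ Icc 0 l, ∫⁻ k, A k * g k ∂ν ≤
      ∫⁻ k, A k * (ex (l * |k (lap0 f)|) * g (sh f s k)) ∂ν := by
    intro s hs
    have h := cm_sh hν hf (-s) (F := fun k => A k * g (sh f s k))
      (hA.mul (hg.comp (measurable_sh_const f s)))
    simp only [hi, sh_sh, add_neg_cancel, sh_zero] at h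
    rw [h]
    refine lintegral_mono fun k => ?_
    rw [mul_left_comm]
    refine mul_le_mul_right (mul_le_mul_left (ex_mono ?_) _) _
    have h2 := en0_nonneg hν f
    have h3 : -s * k (lap0 f) ≤ l * |k (lap0 f)| := by
      rw [neg_mul, ← mul_neg]
      exact (mul_le_mul_of_nonneg_left (neg_le_abs _) hs.1).trans
        (mul_le_mul_of_nonneg_right hs.2 (abs_nonneg _))
    have h4 : 0 ≤ (-s) ^ 2 * en0 f / 2 := by positivity
    linarith
  calc _ = ∫⁻ _ in Icc 0 l, ∫⁻ k, A k * g k ∂ν := by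
        rw [setLIntegral_const, Real.volume_Icc, sub_zero, mul_comm]
    _ ≤ ∫⁻ s in Icc 0 l, ∫⁻ k, A k * (ex (l * |k (lap0 f)|) * g (sh f s k)) ∂ν :=
        setLIntegral_mono' measurableSet_Icc h1
    _ = ∫⁻ k, (∫⁻ s in Icc 0 l, A k * (ex (l * |k (lap0 f)|) * g (sh f s k))) ∂ν :=
        (lintegral_lintegral_swap (μ := ν) (ν := volume.restrict (Icc 0 l))
          (f := fun k s => A k * (ex (l * |k (lap0 f)|) * g (sh f s k)))
          ((hA.comp measurable_fst).mul ((mx.comp measurable_fst).mul mg)).aemeasurable).symm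
    _ = _ := lintegral_congr fun k => by
        have m : Measurable fun s => g (sh f s k) := mg.comp measurable_prodMk_left
        rw [lintegral_const_mul _ (m.const_mul _), lintegral_const_mul _ m]

end Pool.Agent.QL
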